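import Pool.Agent.X64.Bip.Count

namespace Pool.Agent.X64.Bip

variable {n : ℕ} (hn : 0 < n)

/-- if ring `i` is inside ring `j`, some edge of ring `j` passes strictly to the left of every
point of ring `i`, and ends strictly above it. -/
lemma inside (M : Mono (Fin n) (ringG n).adj) {i j : ℕ} (hj : 8 * j + 8 ≤ n) (hi : 8 * i + 8 ≤ n)
    (hij : i ≠ j) (hS : ∀ s, s < 4 → M.S (Q n hn j) (w n hn (8 * i + s)) = 1)
    (f : Fin n × Fin n) (hf : f ∈ Q n hn i) (t : ℝ) (h1 : M.Y f.1 ≤ t) (h2 : t ≤ M.Y f.2) :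
    ∃ g ∈ Q n hn j, M.Y g.1 ≤ t ∧ t < M.Y g.2 ∧ M.F g.1 g.2 t < M.F f.1 f.2 t := by
  apply M.exists_of_S'
  have hfadj := Q_adj hn hi f hf
  have hne : ∀ g ∈ Q n hn j, g.1 ≠ f.1 ∧ g.1 ≠ f.2 ∧ g.2 ≠ f.1 ∧ g.2 ≠ f.2 := by
    intro g hg
    have a0 := Q_ne hn hj (x := 8 * i) (by omega) (by omega) g hg
    have a1 := Q_ne hn hj (x := 8 * i + 1) (by omega) (by omega) g hg
    have a2 := Q_ne hn hj (x := 8 * i + 2) (by omega) (by omega) g hg
    have a3 := Q_ne hn hj (x := 8 * i + 3) (by omega) (by omega) g hg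
    simp only [Q, List.mem_cons, List.not_mem_nil, or_false] at hf
    rcases hf with rfl | rfl | rfl | rfl
    · exact ⟨a0.1, a1.1, a0.2, a1.2⟩
    · exact ⟨a2.1, a1.1, a2.2, a1.2⟩
    · exact ⟨a0.1, a3.1, a0.2, a3.2⟩
    · exact ⟨a2.1, a3.1, a2.2, a3.2⟩
  have := M.inv' hfadj _ (Q_closed hn j) (Q_adj hn hj) hne t h1 h2
  rw [this]
  simp only [Q, List.mem_cons, List.not_mem_nil, or_false] at hf
  rcases hf with rfl | rfl | rfl | rfl
  · exact hS 0 (by norm_num)
  · exact hS 2 (by norm_num)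
  · exact hS 0 (by norm_num)
  · exact hS 2 (by norm_num)

/-- the grid points of the chains of ring `i` -/
noncomputable def pts (D : Drawing (ringG n)) (i : ℕ) : List (ℤ × ℤ) :=
  (Q n hn i).flatMap (fun f => D.chain f.1 f.2)

lemma mem_pts (D : Drawing (ringG n)) (i : ℕ) (r : ℤ × ℤ) :
    r ∈ pts hn D i ↔ ∃ f ∈ Q n hn i, r ∈ D.chain f.1 f.2 := by
  simp [pts, List.mem_flatMap]

lemma exists_min (D : Drawing (ringG n)) {i : ℕ} (hi : 8 * i + 8 ≤ n) :
    ∃ m : ℤ, (∃ r ∈ pts hn D i, r.1 = m) ∧ ∀ r ∈ pts hn D i, m ≤ r.1 := by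
  have hne : (pts hn D i).toFinset.Nonempty := by
    have hadj := Q_adj hn hi (w n hn (8 * i), w n hn (8 * i + 1)) (by simp [Q])
    refine ⟨D.pos (w n hn (8 * i)), ?_⟩
    rw [List.mem_toFinset, mem_pts]
    refine ⟨(w n hn (8 * i), w n hn (8 * i + 1)), by simp [Q], ?_⟩
    exact List.mem_of_mem_head? (by rw [D.head_eq _ _ hadj]; simp)
  obtain ⟨r, hr, hr2⟩ := Finset.exists_min_image _ (fun r : ℤ × ℤ => r.1) hne
  refine ⟨r.1, ⟨r, List.mem_toFinset.1 hr, rfl⟩, fun r' hr' => hr2 r' (List.mem_toFinset.2 hr')⟩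

open Classical in
/-- leftmost coordinate of ring `i` -/
noncomputable def mn (D : Drawing (ringG n)) (i : ℕ) : ℤ :=
  if hi : 8 * i + 8 ≤ n then (exists_min hn D hi).choose else 0

/-- top height of ring `i` -/
noncomputable def ht (D : Drawing (ringG n)) (i : ℕ) : ℤ :=
  max (D.pos (w n hn (8 * i + 1))).2 (D.pos (w n hn (8 * i + 3))).2

lemma mn_spec (D : Drawing (ringG n)) {i : ℕ} (hi : 8 * i + 8 ≤ n) :
    (∃ r ∈ pts hn D i, r.1 = mn hn D i) ∧ ∀ r ∈ pts hn D i, mn hn D i ≤ r.1 := by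
  rw [mn, dif_pos hi]
  exact (exists_min hn D hi).choose_spec

lemma nested (D : Drawing (ringG n)) (M : Mono (Fin n) (ringG n).adj)
    (hY : ∀ w, M.Y w = (D.pos w).2)
    (hF : ∀ u v, (ringG n).adj u v → ∀ t : ℝ, M.Y u ≤ t → t ≤ M.Y v →
        (M.F u v t, t) ∈ chainSet (D.chain u v))
    (hC : ∀ u v, (ringG n).adj u v → ∀ r ∈ D.chain u v, (r.1 : ℝ) = M.F u v r.2 ∧ M.Y u ≤ r.2 ∧
        r.2 ≤ M.Y v) {i j : ℕ} (hj : 8 * j + 8 ≤ n) (hi : 8 * i + 8 ≤ n)
    (hij : i ≠ j) (hS : ∀ s, s < 4 → M.S (Q n hn j) (w n hn (8 * i + s)) = 1) :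
    mn hn D j < mn hn D i ∧ ht hn D i < ht hn D j := by
  constructor
  · obtain ⟨⟨r, hr, hr2⟩, _⟩ := mn_spec hn D hi
    obtain ⟨f, hf, hrf⟩ := (mem_pts hn D i r).1 hr
    have hadj := Q_adj hn hi f hf
    obtain ⟨c1, c2, c3⟩ := hC f.1 f.2 hadj r hrf
    obtain ⟨g, hg, g1, g2, g3⟩ := inside hn M hj hi hij hS f hf r.2 c2 c3
    have hgadj := Q_adj hn hj g hg
    have hz := hF g.1 g.2 hgadj r.2 g1 g2.le
    obtain ⟨r', hr', hr'2⟩ := exists_left _ _ hz
    have h1 := (mn_spec hn D hj).2 r' ((mem_pts hn D j r').2 ⟨g, hg, hr'⟩)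
    have h2 : (r'.1 : ℝ) < r.1 := by
      rw [c1]
      exact lt_of_le_of_lt hr'2 g3
    have h3 : r'.1 < r.1 := by exact_mod_cast h2
    omega
  · -- heights
    have key : ∀ f ∈ Q n hn i, (D.pos f.2).2 < ht hn D j := by
      intro f hf
      have hadj := Q_adj hn hi f hf
      have hup := M.up f.1 f.2 hadj
      obtain ⟨g, hg, g1, g2, g3⟩ := inside hn M hj hi hij hS f hf (M.Y f.2) (by linarith) (le_refl _)
      rw [hY, hY] at g2
      have g2' : (D.pos f.2).2 < (D.pos g.2).2 := by exact_mod_cast g2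
      refine lt_of_lt_of_le g2' ?_
      simp only [Q, List.mem_cons, List.not_mem_nil, or_false] at hg
      rcases hg with rfl | rfl | rfl | rfl
      · exact le_max_left _ _
      · exact le_max_left _ _
      · exact le_max_right _ _
      · exact le_max_right _ _
    rw [ht]
    refine max_lt ?_ ?_
    · exact key (w n hn (8 * i), w n hn (8 * i + 1)) (by simp [Q])
    · exact key (w n hn (8 * i), w n hn (8 * i + 3)) (by simp [Q])

lemma card_le {T : Finset ℕ} {φ : ℕ → ℤ} {a : ℤ} {W : ℕ}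
    (hinj : ∀ i ∈ T, ∀ j ∈ T, i ≠ j → φ i ≠ φ j) (hbox : ∀ i ∈ T, a ≤ φ i ∧ φ i ≤ a + W) :
    T.card ≤ W + 1 := by
  have h1 : T.card ≤ (Finset.Icc a (a + W)).card := by
    refine Finset.card_le_card_of_injOn φ ?_ ?_
    · intro i hi
      rw [Finset.mem_coe, Finset.mem_Icc]
      exact hbox i hi
    · intro i hi j hj hij
      by_contra hne
      exact hinj i hi j hj hne hij
  rw [Int.card_Icc] at h1
  have : (a + W + 1 - a).toNat = W + 1 := by omega
  omega

include hn in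
theorem width_height (D : Drawing (ringG n)) {a b : ℤ} {W H : ℕ} (hbox : D.InBox a b W H)
    {k : ℕ} (hk : 8 * k ≤ n) : k ≤ 2 * W + 4 ∧ k ≤ 2 * H + 4 := by
  obtain ⟨M, hX, hY, hF, hC⟩ := exists_mono D
  classical
  -- the rings whose lower layers are inside
  obtain ⟨P, hP⟩ : ∃ P : ℕ → Prop, ∀ j, P j ↔
      (∀ i, i < j → ∀ s, s < 4 → M.S (Q n hn j) (w n hn (8 * i + s)) = 1) :=
    ⟨_, fun _ => Iff.rfl⟩
  let T : Finset ℕ := (Finset.Ico 1 (k - 1)).filter (fun j => P j)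
  let T' : Finset ℕ := (Finset.Ico 1 (k - 1)).filter (fun j => ¬ P j)
  have hcard : T.card + T'.card = k - 2 := by
    have := Finset.card_filter_add_card_filter_not (s := Finset.Ico 1 (k - 1)) (fun j => P j)
    rw [Nat.card_Ico] at this
    show _ + _ = _
    omega
  have hT : ∀ i ∈ T, ∀ j ∈ T, i < j → mn hn D j < mn hn D i ∧ ht hn D i < ht hn D j := by
    intro i hi j hj hij
    rw [Finset.mem_filter, Finset.mem_Ico] at hi hj
    exact nested hn D M hY hF hC (by omega) (by omega) (by omega) ((hP j).1 hj.2 i hij)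
  have hT' : ∀ i ∈ T', ∀ j ∈ T', i < j → mn hn D i < mn hn D j ∧ ht hn D j < ht hn D i := by
    intro i hi j hj hij
    rw [Finset.mem_filter, Finset.mem_Ico] at hi hj
    refine nested hn D M hY hF hC (by omega) (by omega) (by omega) ?_
    rcases side_cases hn M hi.1.1 (by omega) with h | h
    · exact absurd ((hP i).2 h) hi.2
    · exact h j hij (by omega)
  have bx : ∀ i, 8 * i + 8 ≤ n → a ≤ mn hn D i ∧ mn hn D i ≤ a + W := by
    intro i hi
    obtain ⟨⟨r, hr, hr2⟩, _⟩ := mn_spec hn D hi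
    obtain ⟨f, hf, hrf⟩ := (mem_pts hn D i r).1 hr
    have h1 := hbox.2 f.1 f.2 (Q_adj hn hi f hf) (mem_chainSet_of_mem _ _ hrf)
    have h2 := h1.1
    rw [Set.mem_Icc] at h2
    simp only [toR] at h2
    obtain ⟨h3, h4⟩ := h2
    rw [← hr2]
    constructor
    · exact_mod_cast h3
    · exact_mod_cast h4
  have bh : ∀ i, b ≤ ht hn D i ∧ ht hn D i ≤ b + H := by
    intro i
    have : ∀ v, b ≤ (D.pos v).2 ∧ (D.pos v).2 ≤ b + H := by
      intro v
      have h2 := (hbox.1 v).2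
      rw [Set.mem_Icc] at h2
      simp only [toR] at h2
      obtain ⟨h3, h4⟩ := h2
      constructor
      · exact_mod_cast h3
      · exact_mod_cast h4
    rw [ht]
    exact ⟨(this _).1.trans (le_max_left _ _), max_le (this _).2 (this _).2⟩
  have hi_of : ∀ i ∈ T, 8 * i + 8 ≤ n := by
    intro i hi
    rw [Finset.mem_filter, Finset.mem_Ico] at hi
    omega
  have hi_of' : ∀ i ∈ T', 8 * i + 8 ≤ n := by
    intro i hi
    rw [Finset.mem_filter, Finset.mem_Ico] at hi
    omega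
  have c1 : T.card ≤ W + 1 := by
    refine card_le (φ := mn hn D) (a := a) ?_ (fun i hi => bx i (hi_of i hi))
    intro i hi j hj hij
    rcases lt_or_gt_of_ne hij with h | h
    · exact (hT i hi j hj h).1.ne'
    · exact (hT j hj i hi h).1.ne
  have c2 : T'.card ≤ W + 1 := by
    refine card_le (φ := mn hn D) (a := a) ?_ (fun i hi => bx i (hi_of' i hi))
    intro i hi j hj hij
    rcases lt_or_gt_of_ne hij with h | h
    · exact (hT' i hi j hj h).1.ne
    · exact (hT' j hj i hi h).1.ne'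
  have c3 : T.card ≤ H + 1 := by
    refine card_le (φ := ht hn D) (a := b) ?_ (fun i _ => bh i)
    intro i hi j hj hij
    rcases lt_or_gt_of_ne hij with h | h
    · exact (hT i hi j hj h).2.ne
    · exact (hT j hj i hi h).2.ne'
  have c4 : T'.card ≤ H + 1 := by
    refine card_le (φ := ht hn D) (a := b) ?_ (fun i _ => bh i)
    intro i hi j hj hij
    rcases lt_or_gt_of_ne hij with h | h
    · exact (hT' i hi j hj h).2.ne'
    · exact (hT' j hj i hi h).2.ne
  omega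

include hn in
/-- every poly-line upward planar grid drawing of the graph of nested rings has large area. -/
theorem area_lower (hn78 : 96 ≤ n) (D : Drawing (ringG n)) {a b : ℤ} {W H : ℕ}
    (hbox : D.InBox a b W H) : n ^ 2 ≤ 1024 * (W * H) := by
  obtain ⟨h1, h2⟩ := width_height hn D hbox (k := n / 8) (by omega)
  have hW : n ≤ 32 * W := by omega
  have hH : n ≤ 32 * H := by omega
  calc n ^ 2 = n * n := by ring
    _ ≤ (32 * W) * (32 * H) := Nat.mul_le_mul hW hH
    _ = 1024 * (W * H) := by ring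

end Pool.Agent.X64.Bip
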