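import Pool.Agent.X64.Bip.Defs

namespace Pool.Agent.X64.Bip

lemma mem_chainSet_of_mem : ∀ (l : List (ℤ × ℤ)) (r : ℤ × ℤ), r ∈ l → toR r ∈ chainSet l
  | [], r, h => by simp at h
  | [p], r, h => by
      simp only [List.mem_singleton] at h
      subst h
      simp [chainSet]
  | p :: q :: l, r, h => by
      rcases List.mem_cons.1 h with h | h
      · subst h
        exact Or.inl (left_mem_segment ℝ _ _)
      · exact Or.inr (mem_chainSet_of_mem (q :: l) r h)

lemma exists_left : ∀ (l : List (ℤ × ℤ)) (z : ℝ × ℝ), z ∈ chainSet l → ∃ r ∈ l, (r.1 : ℝ) ≤ z.1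
  | [], z, h => by simp [chainSet] at h
  | [p], z, h => by
      simp only [chainSet, Set.mem_singleton_iff] at h
      subst h
      exact ⟨p, by simp, le_refl _⟩
  | p :: q :: l, z, h => by
      rcases h with h | h
      · obtain ⟨a, b, ha, hb, hab, rfl⟩ := h
        by_cases hpq : (p.1 : ℝ) ≤ q.1
        · refine ⟨p, by simp, ?_⟩
          simp only [toR, Prod.fst_add, Prod.smul_fst, smul_eq_mul]
          have : b * (p.1 : ℝ) ≤ b * q.1 := mul_le_mul_of_nonneg_left hpq hb
          have h2 : (p.1 : ℝ) = a * p.1 + b * p.1 := by rw [← add_mul, hab, one_mul]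
          linarith
        · refine ⟨q, by simp, ?_⟩
          simp only [toR, Prod.fst_add, Prod.smul_fst, smul_eq_mul]
          have : a * (q.1 : ℝ) ≤ a * p.1 := mul_le_mul_of_nonneg_left (not_le.1 hpq).le ha
          have h2 : (q.1 : ℝ) = a * q.1 + b * q.1 := by rw [← add_mul, hab, one_mul]
          linarith
      · obtain ⟨r, hr, hr2⟩ := exists_left (q :: l) z h
        exact ⟨r, List.mem_cons_of_mem _ hr, hr2⟩

/-- linear interpolation -/
noncomputable def lin (p q : ℤ × ℤ) (t : ℝ) : ℝ :=
  (p.1 : ℝ) + (t - p.2) / ((q.2 : ℝ) - p.2) * ((q.1 : ℝ) - p.1)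

lemma mem_segment_lin (p q : ℤ × ℤ) (h : p.2 < q.2) (z : ℝ × ℝ) :
    z ∈ segment ℝ (toR p) (toR q) ↔ (p.2 : ℝ) ≤ z.2 ∧ z.2 ≤ q.2 ∧ z.1 = lin p q z.2 := by
  have h' : (0 : ℝ) < (q.2 : ℝ) - p.2 := by
    have : (p.2 : ℝ) < q.2 := by exact_mod_cast h
    linarith
  constructor
  · rintro ⟨a, b, ha, hb, hab, rfl⟩
    have ha' : a = 1 - b := by linarith
    subst ha'
    simp only [toR, Prod.smul_mk, smul_eq_mul, Prod.mk_add_mk, lin]
    refine ⟨by nlinarith, by nlinarith, ?_⟩
    field_simp
    ring
  · rintro ⟨h1, h2, h3⟩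
    refine ⟨1 - (z.2 - p.2) / ((q.2 : ℝ) - p.2), (z.2 - p.2) / ((q.2 : ℝ) - p.2), ?_, ?_, by ring, ?_⟩
    · rw [sub_nonneg, div_le_one h']
      linarith
    · exact div_nonneg (by linarith) h'.le
    · ext
      · simp only [toR, Prod.smul_mk, smul_eq_mul, Prod.mk_add_mk]
        rw [h3, lin]
        ring
      · simp only [toR, Prod.smul_mk, smul_eq_mul, Prod.mk_add_mk]
        field_simp
        ring

lemma lin_right (p q : ℤ × ℤ) (h : p.2 < q.2) : lin p q q.2 = q.1 := by
  have h' : ((q.2 : ℝ) - p.2) ≠ 0 := by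
    have : (p.2 : ℝ) < q.2 := by exact_mod_cast h
    linarith
  rw [lin, div_self h']
  ring

lemma continuous_lin (p q : ℤ × ℤ) : Continuous (lin p q) := by
  unfold lin
  fun_prop

/-- a strictly upward chain is the graph of a continuous function of the height. -/
lemma exists_fun : ∀ (l : List (ℤ × ℤ)) (p q : ℤ × ℤ), l.head? = some p → l.getLast? = some q →
    l.Pairwise (fun p q => p.2 < q.2) →
    ∃ F : ℝ → ℝ, Continuous F ∧ p.2 ≤ q.2 ∧
      (∀ z ∈ chainSet l, z.1 = F z.2 ∧ (p.2 : ℝ) ≤ z.2 ∧ z.2 ≤ q.2) ∧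
      (∀ t : ℝ, (p.2 : ℝ) ≤ t → t ≤ q.2 → (F t, t) ∈ chainSet l)
  | [], p, q, hp, _, _ => by simp at hp
  | [r], p, q, hp, hq, _ => by
      simp only [List.head?_cons, Option.some.injEq] at hp
      simp only [List.getLast?_singleton, Option.some.injEq] at hq
      subst hp
      subst hq
      refine ⟨fun _ => r.1, continuous_const, le_refl _, ?_, ?_⟩
      · intro z hz
        simp only [chainSet, Set.mem_singleton_iff] at hz
        subst hz
        simp [toR]
      · intro t h1 h2
        have : t = r.2 := le_antisymm h2 h1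
        subst this
        simp [chainSet, toR]
  | r :: s :: l, p, q, hp, hq, hl => by
      simp only [List.head?_cons, Option.some.injEq] at hp
      subst hp
      have hq' : (s :: l).getLast? = some q := by
        rw [List.getLast?_cons_cons] at hq
        exact hq
      have hrs : r.2 < s.2 := by
        have := (List.pairwise_cons.1 hl).1 s (by simp)
        exact this
      obtain ⟨F, hF, hsq, h1, h2⟩ := exists_fun (s :: l) s q rfl hq' (List.pairwise_cons.1 hl).2
      have hs : (s.1 : ℝ) = F s.2 := (h1 (toR s) (mem_chainSet_of_mem _ _ (by simp))).1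
      have hrs' : (r.2 : ℝ) < s.2 := by exact_mod_cast hrs
      have hsq' : (s.2 : ℝ) ≤ q.2 := by exact_mod_cast hsq
      refine ⟨fun t => if t ≤ s.2 then lin r s t else F t, ?_, by omega, ?_, ?_⟩
      · refine Continuous.if_le (continuous_lin r s) hF continuous_id continuous_const ?_
        intro t ht
        rw [ht, lin_right r s hrs, hs]
      · rintro z (hz | hz)
        · rw [mem_segment_lin r s hrs] at hz
          refine ⟨?_, hz.1, hz.2.1.trans hsq'⟩
          show z.1 = if z.2 ≤ s.2 then lin r s z.2 else F z.2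
          rw [if_pos hz.2.1]
          exact hz.2.2
        · obtain ⟨h3, h4, h5⟩ := h1 z hz
          refine ⟨?_, hrs'.le.trans h4, h5⟩
          show z.1 = if z.2 ≤ s.2 then lin r s z.2 else F z.2
          by_cases h6 : z.2 ≤ s.2
          · have h7 : z.2 = s.2 := le_antisymm h6 h4
            rw [if_pos h6, h3, h7, lin_right r s hrs, hs]
          · rw [if_neg h6]
            exact h3
      · intro t ht1 ht2
        by_cases h6 : t ≤ s.2
        · simp only [if_pos h6]
          left
          rw [mem_segment_lin r s hrs]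
          exact ⟨ht1, h6, rfl⟩
        · simp only [if_neg h6]
          right
          exact h2 t (not_le.1 h6).le ht2

end Pool.Agent.X64.Bip
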