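import Pool.Agent.X64.Bip.Lower

namespace Pool.Agent.X64.Bip

/-- vertex number `m` (junk value for `m ≥ n`) -/
def w (n : ℕ) (hn : 0 < n) (m : ℕ) : Fin n := ⟨if m < n then m else 0, by split_ifs <;> assumption⟩

lemma w_val {n : ℕ} (hn : 0 < n) {m : ℕ} (h : m < n) : (w n hn m).val = m := by
  simp [w, h]

lemma w_ne {n : ℕ} (hn : 0 < n) {x y : ℕ} (hx : x < n) (hy : y < n) (h : x ≠ y) :
    w n hn x ≠ w n hn y := by
  intro h'
  have := congrArg Fin.val h'
  rw [w_val hn hx, w_val hn hy] at this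
  exact h this

lemma adj_w {n : ℕ} (hn : 0 < n) {x y : ℕ} (hx : x < n) (hy : y < n) (h : ringAdj x y) :
    (ringG n).adj (w n hn x) (w n hn y) := by
  show ringAdj _ _
  rw [w_val hn hx, w_val hn hy]
  exact h

/-- the edges of ring `j` -/
def Q (n : ℕ) (hn : 0 < n) (j : ℕ) : List (Fin n × Fin n) :=
  [(w n hn (8 * j), w n hn (8 * j + 1)), (w n hn (8 * j + 2), w n hn (8 * j + 1)),
    (w n hn (8 * j), w n hn (8 * j + 3)), (w n hn (8 * j + 2), w n hn (8 * j + 3))]

variable {n : ℕ} (hn : 0 < n) (M : Mono (Fin n) (ringG n).adj)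

lemma Q_adj {j : ℕ} (hj : 8 * j + 8 ≤ n) : ∀ f ∈ Q n hn j, (ringG n).adj f.1 f.2 := by
  intro f hf
  simp only [Q, List.mem_cons, List.not_mem_nil, or_false] at hf
  rcases hf with rfl | rfl | rfl | rfl
  · exact adj_w hn (by omega) (by omega) (by unfold ringAdj; omega)
  · exact adj_w hn (by omega) (by omega) (by unfold ringAdj; omega)
  · exact adj_w hn (by omega) (by omega) (by unfold ringAdj; omega)
  · exact adj_w hn (by omega) (by omega) (by unfold ringAdj; omega)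

lemma Q_ne {j : ℕ} (hj : 8 * j + 8 ≤ n) {x : ℕ} (hx : x < n) (h : ¬ (x / 8 = j ∧ x % 8 < 4)) :
    ∀ f ∈ Q n hn j, f.1 ≠ w n hn x ∧ f.2 ≠ w n hn x := by
  intro f hf
  simp only [Q, List.mem_cons, List.not_mem_nil, or_false] at hf
  rcases hf with rfl | rfl | rfl | rfl
  · exact ⟨w_ne hn (by omega) hx (by omega), w_ne hn (by omega) hx (by omega)⟩
  · exact ⟨w_ne hn (by omega) hx (by omega), w_ne hn (by omega) hx (by omega)⟩
  · exact ⟨w_ne hn (by omega) hx (by omega), w_ne hn (by omega) hx (by omega)⟩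
  · exact ⟨w_ne hn (by omega) hx (by omega), w_ne hn (by omega) hx (by omega)⟩

lemma Q_closed (j : ℕ) : Mono.Closed (Q n hn j) := Mono.closedQ _ _ _ _

lemma transport {j : ℕ} (hj : 8 * j + 8 ≤ n) {x y : ℕ} (hx : x < n) (hy : y < n)
    (hxy : ringAdj x y) (h1 : ¬ (x / 8 = j ∧ x % 8 < 4)) (h2 : ¬ (y / 8 = j ∧ y % 8 < 4)) :
    M.S (Q n hn j) (w n hn x) = M.S (Q n hn j) (w n hn y) := by
  refine M.inv (adj_w hn hx hy hxy) _ (Q_closed hn j) (Q_adj hn hj) ?_
  intro f hf
  exact ⟨(Q_ne hn hj hx h1 f hf).1, (Q_ne hn hj hy h2 f hf).1, (Q_ne hn hj hx h1 f hf).2,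
    (Q_ne hn hj hy h2 f hf).2⟩

lemma layer {i j : ℕ} (hj : 8 * j + 8 ≤ n) (hi : 8 * i + 8 ≤ n) (hij : i ≠ j) {s : ℕ} (hs : s < 5) :
    M.S (Q n hn j) (w n hn (8 * i + s)) = M.S (Q n hn j) (w n hn (8 * i)) := by
  have h1 := transport hn M hj (x := 8 * i) (y := 8 * i + 1) (by omega) (by omega)
    (by unfold ringAdj; omega) (by omega) (by omega)
  have h2 := transport hn M hj (x := 8 * i + 2) (y := 8 * i + 1) (by omega) (by omega)
    (by unfold ringAdj; omega) (by omega) (by omega)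
  have h3 := transport hn M hj (x := 8 * i) (y := 8 * i + 3) (by omega) (by omega)
    (by unfold ringAdj; omega) (by omega) (by omega)
  have h4 := transport hn M hj (x := 8 * i) (y := 8 * i + 4) (by omega) (by omega)
    (by unfold ringAdj; omega) (by omega) (by omega)
  have : s = 0 ∨ s = 1 ∨ s = 2 ∨ s = 3 ∨ s = 4 := by omega
  rcases this with rfl | rfl | rfl | rfl | rfl
  · rfl
  · exact h1.symm
  · rw [h2, h1]
  · exact h3.symm
  · exact h4.symm

lemma next_layer {i j : ℕ} (hj : 8 * j + 8 ≤ n) (hi : 8 * (i + 1) + 8 ≤ n) (hij : i ≠ j)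
    (hij' : i + 1 ≠ j) :
    M.S (Q n hn j) (w n hn (8 * (i + 1))) = M.S (Q n hn j) (w n hn (8 * i)) := by
  have h1 := transport hn M hj (x := 8 * (i + 1)) (y := 8 * i + 4) (by omega) (by omega)
    (by unfold ringAdj; omega) (by omega) (by omega)
  rw [h1]
  exact layer hn M hj (by omega) hij (by norm_num)

lemma below {j : ℕ} (hj : 8 * j + 8 ≤ n) (d : ℕ) : ∀ i, i + d + 1 = j →
    M.S (Q n hn j) (w n hn (8 * i)) = M.S (Q n hn j) (w n hn (8 * (j - 1))) := by
  induction d with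
  | zero =>
    intro i hi
    have : i = j - 1 := by omega
    rw [this]
  | succ d ih =>
    intro i hi
    rw [← ih (i + 1) (by omega)]
    exact (next_layer hn M hj (by omega) (by omega) (by omega)).symm

lemma above {j : ℕ} (hj : 8 * j + 8 ≤ n) (d : ℕ) : 8 * (j + 1 + d) + 8 ≤ n →
    M.S (Q n hn j) (w n hn (8 * (j + 1 + d))) = M.S (Q n hn j) (w n hn (8 * (j + 1))) := by
  induction d with
  | zero =>
    intro _
    rfl
  | succ d ih =>
    intro h
    rw [← ih (by omega)]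
    exact (next_layer hn M hj (i := j + 1 + d) (by omega) (by omega) (by omega))

lemma side_sum {j : ℕ} (hj1 : 1 ≤ j) (hj : 8 * (j + 1) + 8 ≤ n) :
    M.S (Q n hn j) (w n hn (8 * (j - 1) + 4)) + M.S (Q n hn j) (w n hn (8 * (j + 1) + 1)) = 1 := by
  refine M.sides (fun y z h => (ringG n).ne y z h)
    (a := w n hn (8 * j)) (b := w n hn (8 * j + 1)) (c := w n hn (8 * j + 2))
    (d := w n hn (8 * j + 3)) (a' := w n hn (8 * (j - 1))) (b' := w n hn (8 * (j - 1) + 1))
    (c' := w n hn (8 * (j - 1) + 2)) (α := w n hn (8 * (j - 1) + 4))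
    (γ := w n hn (8 * (j - 1) + 6)) (β := w n hn (8 * j + 5)) (δ := w n hn (8 * j + 7))
    (a'' := w n hn (8 * (j + 1))) (b'' := w n hn (8 * (j + 1) + 1))
    (d'' := w n hn (8 * (j + 1) + 3)) ?_ ?_ ?_ ?_ ?_ ?_ ?_ ?_ ?_ ?_ ?_ ?_ ?_ ?_ ?_ ?_ ?_
  · have : ([8 * j, 8 * j + 1, 8 * j + 2, 8 * j + 3, 8 * (j - 1), 8 * (j - 1) + 1,
        8 * (j - 1) + 2, 8 * (j - 1) + 4, 8 * (j - 1) + 6, 8 * j + 5, 8 * j + 7,
        8 * (j + 1), 8 * (j + 1) + 1, 8 * (j + 1) + 3] : List ℕ).Nodup := by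
      simp only [List.nodup_cons, List.mem_cons, List.not_mem_nil, or_false, not_or,
        List.nodup_nil, not_false_eq_true, and_true]
      omega
    refine List.Nodup.map_on (f := w n hn) ?_ this
    intro x hx y hy hxy
    simp only [List.mem_cons, List.not_mem_nil, or_false] at hx hy
    have hx' : x < n := by omega
    have hy' : y < n := by omega
    by_contra hne
    exact w_ne hn hx' hy' hne hxy
  all_goals exact adj_w hn (by omega) (by omega) (by unfold ringAdj; omega)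

lemma zmod2_cases : ∀ x : ZMod 2, x = 0 ∨ x = 1 := by decide

/-- one of the two sides of ring `j` is inside. -/
lemma side_cases {j : ℕ} (hj1 : 1 ≤ j) (hj : 8 * (j + 1) + 8 ≤ n) :
    (∀ i, i < j → ∀ s, s < 4 → M.S (Q n hn j) (w n hn (8 * i + s)) = 1) ∨
    (∀ i, j < i → 8 * i + 8 ≤ n → ∀ s, s < 4 → M.S (Q n hn j) (w n hn (8 * i + s)) = 1) := by
  have hsum := side_sum hn M hj1 hj
  have hj' : 8 * j + 8 ≤ n := by omega
  rcases zmod2_cases (M.S (Q n hn j) (w n hn (8 * (j - 1) + 4))) with h0 | h1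
  · right
    intro i hi hin s hs
    rw [h0, zero_add] at hsum
    rw [layer hn M hj' hin (by omega) (by omega)]
    obtain ⟨d, rfl⟩ : ∃ d, i = j + 1 + d := ⟨i - (j + 1), by omega⟩
    rw [above hn M hj' d hin, ← layer hn M hj' (i := j + 1) (by omega) (by omega) (s := 1) (by omega)]
    exact hsum
  · left
    intro i hi s hs
    rw [layer hn M hj' (by omega) (by omega) (by omega)]
    rw [below hn M hj' (j - 1 - i) i (by omega),
      ← layer hn M hj' (i := j - 1) (by omega) (by omega) (s := 4) (by omega)]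
    exact h1

end Pool.Agent.X64.Bip
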