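import Mathlib

/-!
# Upward planar poly-line grid drawings of bipartite DAGs

Definitions for problem MP_9caa86_co.
-/

namespace Pool.Agent.X64.Bip

/-- A bipartite DAG on the vertex set `Fin n`: a digraph `adj` (no multiple edges) together with
a set `V₁` such that every edge goes from a vertex of `V₁` to a vertex outside `V₁`
(so every vertex is a source or a sink, and there are no loops). -/
structure BipDAG (n : ℕ) where
  /-- `adj u v`: there is an edge directed from `u` to `v`. -/
  adj : Fin n → Fin n → Prop
  /-- every edge is directed from `V₁` to the complement of `V₁`. -/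
  bip : ∃ V₁ : Set (Fin n), ∀ u v, adj u v → u ∈ V₁ ∧ v ∉ V₁

/-- The point of the plane `ℝ × ℝ` given by a grid point. -/
def toR (p : ℤ × ℤ) : ℝ × ℝ := ((p.1 : ℝ), (p.2 : ℝ))

/-- The set of points of the polygonal chain through the grid points of the list, in order. -/
def chainSet : List (ℤ × ℤ) → Set (ℝ × ℝ)
  | [] => ∅
  | [p] => {toR p}
  | p :: q :: l => segment ℝ (toR p) (toR q) ∪ chainSet (q :: l)

/-- A poly-line upward planar grid drawing of the digraph `G`: the vertices are placed at distinct
grid points; every edge `(u, v)` is a polygonal chain from the position of `u` to the position of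
`v` whose vertices (ends and bends) are grid points with strictly increasing `y`-coordinate (so the
`y`-coordinate strictly increases along the curve); two different edges have only positions of
common end vertices in common; an edge contains no vertex except its ends. -/
structure Drawing {n : ℕ} (G : BipDAG n) where
  /-- position of a vertex -/
  pos : Fin n → ℤ × ℤ
  /-- the polygonal chain drawn for an edge -/
  chain : Fin n → Fin n → List (ℤ × ℤ)
  pos_inj : Function.Injective pos
  head_eq : ∀ u v, G.adj u v → (chain u v).head? = some (pos u)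
  last_eq : ∀ u v, G.adj u v → (chain u v).getLast? = some (pos v)
  upward : ∀ u v, G.adj u v → (chain u v).Pairwise (fun p q => p.2 < q.2)
  edge_edge : ∀ u v u' v', G.adj u v → G.adj u' v' → (u, v) ≠ (u', v') →
    ∀ z, z ∈ chainSet (chain u v) → z ∈ chainSet (chain u' v') →
      ∃ w, (w = u ∨ w = v) ∧ (w = u' ∨ w = v') ∧ z = toR (pos w)
  edge_vertex : ∀ u v, G.adj u v → ∀ w, toR (pos w) ∈ chainSet (chain u v) → w = u ∨ w = v

/-- All vertices and all points of the edges of the drawing lie in the rectangle
`[a, a + W] × [b, b + H]`. -/
def Drawing.InBox {n : ℕ} {G : BipDAG n} (D : Drawing G) (a b : ℤ) (W H : ℕ) : Prop :=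
  (∀ w, toR (D.pos w) ∈ Set.Icc (a : ℝ) (a + W) ×ˢ Set.Icc (b : ℝ) (b + H)) ∧
  (∀ u v, G.adj u v → chainSet (D.chain u v) ⊆ Set.Icc (a : ℝ) (a + W) ×ˢ Set.Icc (b : ℝ) (b + H))

/-- The minimum area `W * H` of a poly-line upward planar grid drawing of `G`. -/
noncomputable def minArea {n : ℕ} (G : BipDAG n) : ℕ :=
  sInf {A : ℕ | ∃ D : Drawing G, ∃ a b : ℤ, ∃ W H : ℕ, D.InBox a b W H ∧ A = W * H}

/-- `Ap n`: the maximum, over the bipartite DAGs with `n` vertices that have an upward planar
drawing, of the minimum area of a poly-line upward planar grid drawing. -/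
noncomputable def Ap (n : ℕ) : ℕ :=
  sSup {A : ℕ | ∃ G : BipDAG n, Nonempty (Drawing G) ∧ A = minArea G}

end Pool.Agent.X64.Bip
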