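import Pool.Agent.X64.Bip.Lower

set_option maxHeartbeats 400000

namespace Pool.Agent.X64.Bip

/-- position of the vertex `v` of the infinite graph of nested rings -/
def gpos (v : ℕ) : ℤ × ℤ :=
  if v % 8 = 0 then (0, -(2 * ((v / 8 : ℕ) : ℤ) + 4))
  else if v % 8 = 1 then (-(2 * ((v / 8 : ℕ) : ℤ) + 4), 3 * (2 * ((v / 8 : ℕ) : ℤ) + 4))
  else if v % 8 = 2 then (0, 2 * (2 * ((v / 8 : ℕ) : ℤ) + 4))
  else if v % 8 = 3 then (2 * ((v / 8 : ℕ) : ℤ) + 4, 3 * (2 * ((v / 8 : ℕ) : ℤ) + 4))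
  else if v % 8 = 4 then (-2, -(2 * ((v / 8 : ℕ) : ℤ) + 4) + 1)
  else if v % 8 = 5 then (-(2 * ((v / 8 : ℕ) : ℤ) + 4) - 1, 3 * (2 * ((v / 8 : ℕ) : ℤ) + 4) - 1)
  else if v % 8 = 6 then (-2, 2 * (2 * ((v / 8 : ℕ) : ℤ) + 4) + 5)
  else ((2 * ((v / 8 : ℕ) : ℤ) + 4) + 1, 3 * (2 * ((v / 8 : ℕ) : ℤ) + 4) - 1)

/-- chain of the edge `(u, v)` -/
def gchain (u v : ℕ) : List (ℤ × ℤ) :=
  if u % 8 = 0 ∧ v % 8 = 1 then [gpos u, (-(2 * ((u / 8 : ℕ) : ℤ) + 4), 0), gpos v]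
  else if u % 8 = 0 ∧ v % 8 = 3 then [gpos u, (2 * ((u / 8 : ℕ) : ℤ) + 4, 0), gpos v]
  else [gpos u, gpos v]

lemma gp0 (i : ℕ) : gpos (8 * i) = (0, -(2 * (i : ℤ) + 4)) := by
  have h1 : (8 * i) % 8 = 0 := by omega
  have h2 : (8 * i) / 8 = i := by omega
  simp [gpos, h1, h2]
lemma gp1 (i : ℕ) : gpos (8 * i + 1) = (-(2 * (i : ℤ) + 4), 3 * (2 * (i : ℤ) + 4)) := by
  have h1 : (8 * i + 1) % 8 = 1 := by omega
  have h2 : (8 * i + 1) / 8 = i := by omega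
  rw [gpos, h1, h2]; simp
lemma gp2 (i : ℕ) : gpos (8 * i + 2) = (0, 2 * (2 * (i : ℤ) + 4)) := by
  have h1 : (8 * i + 2) % 8 = 2 := by omega
  have h2 : (8 * i + 2) / 8 = i := by omega
  rw [gpos, h1, h2]; simp
lemma gp3 (i : ℕ) : gpos (8 * i + 3) = (2 * (i : ℤ) + 4, 3 * (2 * (i : ℤ) + 4)) := by
  have h1 : (8 * i + 3) % 8 = 3 := by omega
  have h2 : (8 * i + 3) / 8 = i := by omega
  rw [gpos, h1, h2]; simp
lemma gp4 (i : ℕ) : gpos (8 * i + 4) = (-2, -(2 * (i : ℤ) + 4) + 1) := by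
  have h1 : (8 * i + 4) % 8 = 4 := by omega
  have h2 : (8 * i + 4) / 8 = i := by omega
  rw [gpos, h1, h2]; simp
lemma gp5 (i : ℕ) : gpos (8 * i + 5) = (-(2 * (i : ℤ) + 4) - 1, 3 * (2 * (i : ℤ) + 4) - 1) := by
  have h1 : (8 * i + 5) % 8 = 5 := by omega
  have h2 : (8 * i + 5) / 8 = i := by omega
  rw [gpos, h1, h2]; simp
lemma gp6 (i : ℕ) : gpos (8 * i + 6) = (-2, 2 * (2 * (i : ℤ) + 4) + 5) := by
  have h1 : (8 * i + 6) % 8 = 6 := by omega
  have h2 : (8 * i + 6) / 8 = i := by omega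
  rw [gpos, h1, h2]; simp
lemma gp7 (i : ℕ) : gpos (8 * i + 7) = (2 * (i : ℤ) + 4 + 1, 3 * (2 * (i : ℤ) + 4) - 1) := by
  have h1 : (8 * i + 7) % 8 = 7 := by omega
  have h2 : (8 * i + 7) / 8 = i := by omega
  rw [gpos, h1, h2]; simp

lemma seg_eq {p q : ℤ × ℤ} {z : ℝ × ℝ} (hz : z ∈ segment ℝ (toR p) (toR q)) (A B C : ℝ)
    (hp : A * p.1 + B * p.2 = C) (hq : A * q.1 + B * q.2 = C) : A * z.1 + B * z.2 = C := by
  obtain ⟨a, b, _, _, hab, rfl⟩ := hz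
  simp only [toR, Prod.smul_mk, smul_eq_mul, Prod.mk_add_mk]
  linear_combination a * hp + b * hq + C * hab

lemma seg_le {p q : ℤ × ℤ} {z : ℝ × ℝ} (hz : z ∈ segment ℝ (toR p) (toR q)) (A B C : ℝ)
    (hp : A * p.1 + B * p.2 ≤ C) (hq : A * q.1 + B * q.2 ≤ C) : A * z.1 + B * z.2 ≤ C := by
  obtain ⟨a, b, ha, hb, hab, rfl⟩ := hz
  simp only [toR, Prod.smul_mk, smul_eq_mul, Prod.mk_add_mk]
  have h1 := mul_le_mul_of_nonneg_left hp ha
  have h2 := mul_le_mul_of_nonneg_left hq hb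
  have h3 : a * C + b * C = C := by rw [← add_mul, hab, one_mul]
  linarith

/-- the twelve kinds of edges, the layer, and where their points are -/
def Loc (u v : ℕ) (x y : ℝ) (i : ℕ) : Prop :=
  (u = 8 * i ∧ v = 8 * i + 1 ∧ ((x + y = -(2 * (i : ℝ) + 4) ∧ -(2 * (i : ℝ) + 4) ≤ x ∧ x ≤ 0) ∨
    (x = -(2 * (i : ℝ) + 4) ∧ 0 ≤ y ∧ y ≤ 3 * (2 * (i : ℝ) + 4)))) ∨
  (u = 8 * i ∧ v = 8 * i + 3 ∧ ((-x + y = -(2 * (i : ℝ) + 4) ∧ x ≤ (2 * (i : ℝ) + 4) ∧ 0 ≤ x) ∨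
    (x = (2 * (i : ℝ) + 4) ∧ 0 ≤ y ∧ y ≤ 3 * (2 * (i : ℝ) + 4)))) ∨
  (u = 8 * i + 2 ∧ v = 8 * i + 1 ∧ (x + y = 2 * (2 * (i : ℝ) + 4) ∧ -(2 * (i : ℝ) + 4) ≤ x ∧
    x ≤ 0)) ∨
  (u = 8 * i + 2 ∧ v = 8 * i + 3 ∧ (-x + y = 2 * (2 * (i : ℝ) + 4) ∧ x ≤ (2 * (i : ℝ) + 4) ∧
    0 ≤ x)) ∨
  (u = 8 * i ∧ v = 8 * i + 4 ∧ (x + 2 * y = -2 * (2 * (i : ℝ) + 4) ∧ -2 ≤ x ∧ x ≤ 0)) ∨
  (u = 8 * (i + 1) ∧ v = 8 * i + 4 ∧ (3 * x + 2 * y = -2 * (2 * (i : ℝ) + 4) - 4 ∧ -2 ≤ x ∧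
    x ≤ 0)) ∨
  (u = 8 * i + 2 ∧ v = 8 * i + 6 ∧ (5 * x + 2 * y = 4 * (2 * (i : ℝ) + 4) ∧ -2 ≤ x ∧ x ≤ 0)) ∨
  (u = 8 * (i + 1) + 2 ∧ v = 8 * i + 6 ∧ (x + 2 * y = 4 * (2 * (i : ℝ) + 4) + 8 ∧ -2 ≤ x ∧
    x ≤ 0)) ∨
  (u = 8 * i + 5 ∧ v = 8 * i + 1 ∧ (-x + y = 4 * (2 * (i : ℝ) + 4) ∧ -(2 * (i : ℝ) + 4) - 1 ≤ x ∧
    x ≤ -(2 * (i : ℝ) + 4))) ∨
  (u = 8 * i + 5 ∧ v = 8 * (i + 1) + 1 ∧ (7 * x + y = -4 * (2 * (i : ℝ) + 4) - 8 ∧
    -(2 * (i : ℝ) + 4) - 2 ≤ x ∧ x ≤ -(2 * (i : ℝ) + 4) - 1)) ∨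
  (u = 8 * i + 7 ∧ v = 8 * i + 3 ∧ (x + y = 4 * (2 * (i : ℝ) + 4) ∧ x ≤ (2 * (i : ℝ) + 4) + 1 ∧
    (2 * (i : ℝ) + 4) ≤ x)) ∨
  (u = 8 * i + 7 ∧ v = 8 * (i + 1) + 3 ∧ (-7 * x + y = -4 * (2 * (i : ℝ) + 4) - 8 ∧
    x ≤ (2 * (i : ℝ) + 4) + 2 ∧ (2 * (i : ℝ) + 4) + 1 ≤ x))

lemma adj_cases {u v : ℕ} (h : ringAdj u v) : ∃ i : ℕ,
    (u = 8 * i ∧ v = 8 * i + 1) ∨ (u = 8 * i ∧ v = 8 * i + 3) ∨
    (u = 8 * i + 2 ∧ v = 8 * i + 1) ∨ (u = 8 * i + 2 ∧ v = 8 * i + 3) ∨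
    (u = 8 * i ∧ v = 8 * i + 4) ∨ (u = 8 * (i + 1) ∧ v = 8 * i + 4) ∨
    (u = 8 * i + 2 ∧ v = 8 * i + 6) ∨ (u = 8 * (i + 1) + 2 ∧ v = 8 * i + 6) ∨
    (u = 8 * i + 5 ∧ v = 8 * i + 1) ∨ (u = 8 * i + 5 ∧ v = 8 * (i + 1) + 1) ∨
    (u = 8 * i + 7 ∧ v = 8 * i + 3) ∨ (u = 8 * i + 7 ∧ v = 8 * (i + 1) + 3) := by
  unfold ringAdj at h
  rcases h with ⟨h0, h | h | h | h | h | h | h | h⟩ | ⟨h0, h | h⟩ | ⟨h0, h | h⟩
  · exact ⟨u / 8, Or.inl (by omega)⟩
  · exact ⟨u / 8, Or.inr (Or.inl (by omega))⟩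
  · exact ⟨u / 8, Or.inr (Or.inr (Or.inl (by omega)))⟩
  · exact ⟨u / 8, Or.inr (Or.inr (Or.inr (Or.inl (by omega))))⟩
  · exact ⟨u / 8, Or.inr (Or.inr (Or.inr (Or.inr (Or.inl (by omega)))))⟩
  · exact ⟨u / 8, Or.inr (Or.inr (Or.inr (Or.inr (Or.inr (Or.inr (Or.inl (by omega)))))))⟩
  · exact ⟨u / 8, Or.inr (Or.inr (Or.inr (Or.inr (Or.inr (Or.inr (Or.inr (Or.inr (Or.inl (by omega)))))))))⟩
  · exact ⟨u / 8, Or.inr (Or.inr (Or.inr (Or.inr (Or.inr (Or.inr (Or.inr (Or.inr (Or.inr (Or.inr (Or.inl (by omega)))))))))))⟩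
  · exact ⟨v / 8, Or.inr (Or.inr (Or.inr (Or.inr (Or.inr (Or.inl (by omega))))))⟩
  · exact ⟨v / 8, Or.inr (Or.inr (Or.inr (Or.inr (Or.inr (Or.inr (Or.inr (Or.inl (by omega))))))))⟩
  · exact ⟨u / 8, Or.inr (Or.inr (Or.inr (Or.inr (Or.inr (Or.inr (Or.inr (Or.inr (Or.inr (Or.inl (by omega))))))))))⟩
  · exact ⟨u / 8, Or.inr (Or.inr (Or.inr (Or.inr (Or.inr (Or.inr (Or.inr (Or.inr (Or.inr (Or.inr (Or.inr (by omega)))))))))))⟩

lemma ch_straight {u v : ℕ} (h1 : ¬ (u % 8 = 0 ∧ v % 8 = 1)) (h2 : ¬ (u % 8 = 0 ∧ v % 8 = 3)) :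
    gchain u v = [gpos u, gpos v] := by
  rw [gchain, if_neg h1, if_neg h2]

lemma straight_mem {p q : ℤ × ℤ} {z : ℝ × ℝ} (hz : z ∈ chainSet [p, q]) :
    z ∈ segment ℝ (toR p) (toR q) := by
  rcases hz with hz | hz
  · exact hz
  · simp only [chainSet, Set.mem_singleton_iff] at hz
    rw [hz]
    exact right_mem_segment ℝ _ _

lemma bent_mem {p q r : ℤ × ℤ} {z : ℝ × ℝ} (hz : z ∈ chainSet [p, q, r]) :
    z ∈ segment ℝ (toR p) (toR q) ∨ z ∈ segment ℝ (toR q) (toR r) := by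
  rcases hz with hz | hz
  · exact Or.inl hz
  · exact Or.inr (straight_mem hz)

lemma loc {u v : ℕ} (h : ringAdj u v) {z : ℝ × ℝ} (hz : z ∈ chainSet (gchain u v)) :
    ∃ i, Loc u v z.1 z.2 i := by
  obtain ⟨i, hi⟩ := adj_cases h
  refine ⟨i, ?_⟩
  unfold Loc
  rcases hi with ⟨rfl, rfl⟩ | ⟨rfl, rfl⟩ | ⟨rfl, rfl⟩ | ⟨rfl, rfl⟩ | ⟨rfl, rfl⟩ | ⟨rfl, rfl⟩ |
    ⟨rfl, rfl⟩ | ⟨rfl, rfl⟩ | ⟨rfl, rfl⟩ | ⟨rfl, rfl⟩ | ⟨rfl, rfl⟩ | ⟨rfl, rfl⟩
  · left
    refine ⟨rfl, rfl, ?_⟩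
    have e : (8 * i) / 8 = i := by omega
    rw [gchain, if_pos (by omega), gp0, gp1, e] at hz
    rcases bent_mem hz with h | h
    · left
      have a1 := seg_eq h 1 1 (-(2 * (i : ℝ) + 4)) (by push_cast; ring) (by push_cast; ring)
      have a2 := seg_le h 1 0 0 (by push_cast; simp) (by push_cast; linarith [Nat.cast_nonneg (α := ℝ) i])
      have a3 := seg_le h (-1) 0 (2 * (i : ℝ) + 4) (by push_cast; linarith [Nat.cast_nonneg (α := ℝ) i]) (by push_cast; linarith)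
      exact ⟨by linarith, by linarith, by linarith⟩
    · right
      have a1 := seg_eq h 1 0 (-(2 * (i : ℝ) + 4)) (by push_cast; ring) (by push_cast; ring)
      have a2 := seg_le h 0 (-1) 0 (by push_cast; simp) (by push_cast; linarith [Nat.cast_nonneg (α := ℝ) i])
      have a3 := seg_le h 0 1 (3 * (2 * (i : ℝ) + 4)) (by push_cast; linarith [Nat.cast_nonneg (α := ℝ) i]) (by push_cast; linarith)
      exact ⟨by linarith, by linarith, by linarith⟩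
  · right; left
    refine ⟨rfl, rfl, ?_⟩
    have e : (8 * i) / 8 = i := by omega
    rw [gchain, if_neg (by omega), if_pos (by omega), gp0, gp3, e] at hz
    rcases bent_mem hz with h | h
    · left
      have a1 := seg_eq h (-1) 1 (-(2 * (i : ℝ) + 4)) (by push_cast; ring) (by push_cast; ring)
      have a2 := seg_le h (-1) 0 0 (by push_cast; simp) (by push_cast; linarith [Nat.cast_nonneg (α := ℝ) i])
      have a3 := seg_le h 1 0 (2 * (i : ℝ) + 4) (by push_cast; linarith [Nat.cast_nonneg (α := ℝ) i]) (by push_cast; linarith)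
      exact ⟨by linarith, by linarith, by linarith⟩
    · right
      have a1 := seg_eq h 1 0 (2 * (i : ℝ) + 4) (by push_cast; ring) (by push_cast; ring)
      have a2 := seg_le h 0 (-1) 0 (by push_cast; simp) (by push_cast; linarith [Nat.cast_nonneg (α := ℝ) i])
      have a3 := seg_le h 0 1 (3 * (2 * (i : ℝ) + 4)) (by push_cast; linarith [Nat.cast_nonneg (α := ℝ) i]) (by push_cast; linarith)
      exact ⟨by linarith, by linarith, by linarith⟩
  · right; right; left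
    refine ⟨rfl, rfl, ?_⟩
    rw [ch_straight (by omega) (by omega), gp2, gp1] at hz
    have h := straight_mem hz
    have a1 := seg_eq h 1 1 (2 * (2 * (i : ℝ) + 4)) (by push_cast; ring) (by push_cast; ring)
    have a2 := seg_le h 1 0 0 (by push_cast; simp) (by push_cast; linarith [Nat.cast_nonneg (α := ℝ) i])
    have a3 := seg_le h (-1) 0 (2 * (i : ℝ) + 4) (by push_cast; linarith [Nat.cast_nonneg (α := ℝ) i]) (by push_cast; linarith)
    exact ⟨by linarith, by linarith, by linarith⟩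
  · right; right; right; left
    refine ⟨rfl, rfl, ?_⟩
    rw [ch_straight (by omega) (by omega), gp2, gp3] at hz
    have h := straight_mem hz
    have a1 := seg_eq h (-1) 1 (2 * (2 * (i : ℝ) + 4)) (by push_cast; ring) (by push_cast; ring)
    have a2 := seg_le h (-1) 0 0 (by push_cast; simp) (by push_cast; linarith [Nat.cast_nonneg (α := ℝ) i])
    have a3 := seg_le h 1 0 (2 * (i : ℝ) + 4) (by push_cast; linarith [Nat.cast_nonneg (α := ℝ) i]) (by push_cast; linarith)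
    exact ⟨by linarith, by linarith, by linarith⟩
  · right; right; right; right; left
    refine ⟨rfl, rfl, ?_⟩
    rw [ch_straight (by omega) (by omega), gp0, gp4] at hz
    have h := straight_mem hz
    have a1 := seg_eq h 1 2 (-2 * (2 * (i : ℝ) + 4)) (by push_cast; ring) (by push_cast; ring)
    have a2 := seg_le h 1 0 0 (by push_cast; simp) (by push_cast; linarith)
    have a3 := seg_le h (-1) 0 2 (by push_cast; linarith) (by push_cast; linarith)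
    exact ⟨by linarith, by linarith, by linarith⟩
  · right; right; right; right; right; left
    refine ⟨rfl, rfl, ?_⟩
    rw [ch_straight (by omega) (by omega), gp0, gp4] at hz
    have h := straight_mem hz
    have a1 := seg_eq h 3 2 (-2 * (2 * (i : ℝ) + 4) - 4) (by push_cast; ring) (by push_cast; ring)
    have a2 := seg_le h 1 0 0 (by push_cast; simp) (by push_cast; linarith)
    have a3 := seg_le h (-1) 0 2 (by push_cast; linarith) (by push_cast; linarith)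
    exact ⟨by linarith, by linarith, by linarith⟩
  · right; right; right; right; right; right; left
    refine ⟨rfl, rfl, ?_⟩
    rw [ch_straight (by omega) (by omega), gp2, gp6] at hz
    have h := straight_mem hz
    have a1 := seg_eq h 5 2 (4 * (2 * (i : ℝ) + 4)) (by push_cast; ring) (by push_cast; ring)
    have a2 := seg_le h 1 0 0 (by push_cast; simp) (by push_cast; linarith)
    have a3 := seg_le h (-1) 0 2 (by push_cast; linarith) (by push_cast; linarith)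
    exact ⟨by linarith, by linarith, by linarith⟩
  · right; right; right; right; right; right; right; left
    refine ⟨rfl, rfl, ?_⟩
    rw [ch_straight (by omega) (by omega), gp2, gp6] at hz
    have h := straight_mem hz
    have a1 := seg_eq h 1 2 (4 * (2 * (i : ℝ) + 4) + 8) (by push_cast; ring) (by push_cast; ring)
    have a2 := seg_le h 1 0 0 (by push_cast; simp) (by push_cast; linarith)
    have a3 := seg_le h (-1) 0 2 (by push_cast; linarith) (by push_cast; linarith)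
    exact ⟨by linarith, by linarith, by linarith⟩
  · right; right; right; right; right; right; right; right; left
    refine ⟨rfl, rfl, ?_⟩
    rw [ch_straight (by omega) (by omega), gp5, gp1] at hz
    have h := straight_mem hz
    have a1 := seg_eq h (-1) 1 (4 * (2 * (i : ℝ) + 4)) (by push_cast; ring) (by push_cast; ring)
    have a2 := seg_le h 1 0 (-(2 * (i : ℝ) + 4)) (by push_cast; linarith) (by push_cast; linarith)
    have a3 := seg_le h (-1) 0 ((2 * (i : ℝ) + 4) + 1) (by push_cast; linarith) (by push_cast; linarith)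
    exact ⟨by linarith, by linarith, by linarith⟩
  · right; right; right; right; right; right; right; right; right; left
    refine ⟨rfl, rfl, ?_⟩
    rw [ch_straight (by omega) (by omega), gp5, gp1] at hz
    have h := straight_mem hz
    have a1 := seg_eq h 7 1 (-4 * (2 * (i : ℝ) + 4) - 8) (by push_cast; ring) (by push_cast; ring)
    have a2 := seg_le h 1 0 (-(2 * (i : ℝ) + 4) - 1) (by push_cast; linarith) (by push_cast; linarith)
    have a3 := seg_le h (-1) 0 ((2 * (i : ℝ) + 4) + 2) (by push_cast; linarith) (by push_cast; linarith)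
    exact ⟨by linarith, by linarith, by linarith⟩
  · right; right; right; right; right; right; right; right; right; right; left
    refine ⟨rfl, rfl, ?_⟩
    rw [ch_straight (by omega) (by omega), gp7, gp3] at hz
    have h := straight_mem hz
    have a1 := seg_eq h 1 1 (4 * (2 * (i : ℝ) + 4)) (by push_cast; ring) (by push_cast; ring)
    have a2 := seg_le h (-1) 0 (-(2 * (i : ℝ) + 4)) (by push_cast; linarith) (by push_cast; linarith)
    have a3 := seg_le h 1 0 ((2 * (i : ℝ) + 4) + 1) (by push_cast; linarith) (by push_cast; linarith)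
    exact ⟨by linarith, by linarith, by linarith⟩
  · right; right; right; right; right; right; right; right; right; right; right
    refine ⟨rfl, rfl, ?_⟩
    rw [ch_straight (by omega) (by omega), gp7, gp3] at hz
    have h := straight_mem hz
    have a1 := seg_eq h (-7) 1 (-4 * (2 * (i : ℝ) + 4) - 8) (by push_cast; ring) (by push_cast; ring)
    have a2 := seg_le h (-1) 0 (-(2 * (i : ℝ) + 4) - 1) (by push_cast; linarith) (by push_cast; linarith)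
    have a3 := seg_le h 1 0 ((2 * (i : ℝ) + 4) + 2) (by push_cast; linarith) (by push_cast; linarith)
    exact ⟨by linarith, by linarith, by linarith⟩

end Pool.Agent.X64.Bip
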