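import Pool.Agent.X64.Bip.Same
import Pool.Agent.X64.Bip.Bound

namespace Pool.Agent.X64.Bip

lemma gpos_inj {v w : ℕ} (h : gpos v = gpos w) : v = w := by
  by_cases hv : ∃ u, ringAdj v u
  · obtain ⟨u, hu⟩ := hv
    have h1 : toR (gpos w) ∈ chainSet (gchain v u) := by
      rw [← h]
      refine mem_chainSet_of_mem _ _ ?_
      rw [gchain]
      split_ifs <;> simp
    have h2 : toR (gpos w) ∈ chainSet (gchain v u) := h1
    rcases edge_vertex hu h1 with h3 | h3
    · exact h3.symm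
    · -- `w = u`: then positions of `v` and `u` coincide
      exfalso
      subst h3
      unfold ringAdj at hu
      have : (gpos v).2 = (gpos w).2 := by rw [h]
      have h4 : (gpos v).1 = (gpos w).1 := by rw [h]
      unfold gpos at this h4
      rcases hu with ⟨h0, a | a | a | a | a | a | a | a⟩ | ⟨h0, a | a⟩ | ⟨h0, a | a⟩ <;>
        simp only [a.1, a.2] at this h4 <;> simp at this h4 <;> omega
  · by_cases hv' : ∃ u, ringAdj u v
    · obtain ⟨u, hu⟩ := hv'
      have h1 : toR (gpos w) ∈ chainSet (gchain u v) := by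
        rw [← h]
        refine mem_chainSet_of_mem _ _ ?_
        rw [gchain]
        split_ifs <;> simp
      rcases edge_vertex hu h1 with h3 | h3
      · exfalso
        subst h3
        unfold ringAdj at hu
        have : (gpos v).2 = (gpos w).2 := by rw [h]
        have h4 : (gpos v).1 = (gpos w).1 := by rw [h]
        unfold gpos at this h4
        rcases hu with ⟨h0, a | a | a | a | a | a | a | a⟩ | ⟨h0, a | a⟩ | ⟨h0, a | a⟩ <;>
          simp only [a.1, a.2] at this h4 <;> simp at this h4 <;> omega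
      · exact h3.symm
    · exfalso
      have h8 : v % 8 = 0 ∨ v % 8 = 1 ∨ v % 8 = 2 ∨ v % 8 = 3 ∨ v % 8 = 4 ∨ v % 8 = 5 ∨
          v % 8 = 6 ∨ v % 8 = 7 := by omega
      rcases h8 with h8 | h8 | h8 | h8 | h8 | h8 | h8 | h8
      · exact hv ⟨v + 1, Or.inl ⟨by omega, by omega⟩⟩
      · exact hv' ⟨v - 1, Or.inl ⟨by omega, by omega⟩⟩
      · exact hv ⟨v + 1, Or.inl ⟨by omega, by omega⟩⟩
      · exact hv' ⟨v - 1, Or.inl ⟨by omega, by omega⟩⟩
      · exact hv' ⟨v - 4, Or.inl ⟨by omega, by omega⟩⟩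
      · exact hv ⟨v - 4, Or.inl ⟨by omega, by omega⟩⟩
      · exact hv' ⟨v - 4, Or.inl ⟨by omega, by omega⟩⟩
      · exact hv ⟨v - 4, Or.inl ⟨by omega, by omega⟩⟩

lemma edge_edge {u v u' v' : ℕ} (h : ringAdj u v) (h' : ringAdj u' v')
    (hne : ¬ (u = u' ∧ v = v')) {z : ℝ × ℝ} (hz : z ∈ chainSet (gchain u v))
    (hz' : z ∈ chainSet (gchain u' v')) :
    ∃ w, (w = u ∨ w = v) ∧ (w = u' ∨ w = v') ∧ z = toR (gpos w) := by
  obtain ⟨i, hi⟩ := loc h hz
  obtain ⟨j, hj⟩ := loc h' hz'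
  have fin1 : ∀ w, (w = u ∨ w = v) → z = toR (gpos w) →
      ∃ w, (w = u ∨ w = v) ∧ (w = u' ∨ w = v') ∧ z = toR (gpos w) := by
    intro w hw hzw
    exact ⟨w, hw, edge_vertex h' (hzw ▸ hz'), hzw⟩
  have fin2 : ∀ w, (w = u' ∨ w = v') → z = toR (gpos w) →
      ∃ w, (w = u ∨ w = v) ∧ (w = u' ∨ w = v') ∧ z = toR (gpos w) := by
    intro w hw hzw
    exact ⟨w, edge_vertex h (hzw ▸ hz), hw, hzw⟩
  rcases lt_trichotomy i j with hij | hij | hij
  · have hij' : (i : ℝ) + 1 ≤ j := by exact_mod_cast hij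
    rcases upper hi with ⟨R, hR, hL⟩ | ⟨hx, hy⟩ | ⟨hx, hy⟩
    · have := lower hj hL
      linarith
    · exact fin1 u (Or.inl rfl) (Prod.ext hx hy)
    · exact fin1 v (Or.inr rfl) (Prod.ext hx hy)
  · subst hij
    rcases same_layer hi hj hne with ⟨hx, hy⟩ | ⟨hx, hy⟩
    · exact fin1 u (Or.inl rfl) (Prod.ext hx hy)
    · exact fin1 v (Or.inr rfl) (Prod.ext hx hy)
  · have hij' : (j : ℝ) + 1 ≤ i := by exact_mod_cast hij
    rcases upper hj with ⟨R, hR, hL⟩ | ⟨hx, hy⟩ | ⟨hx, hy⟩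
    · have := lower hi hL
      linarith
    · exact fin2 u' (Or.inl rfl) (Prod.ext hx hy)
    · exact fin2 v' (Or.inr rfl) (Prod.ext hx hy)

lemma chain_upward {u v : ℕ} (h : ringAdj u v) :
    (gchain u v).Pairwise (fun p q => p.2 < q.2) := by
  obtain ⟨i, hi⟩ := adj_cases h
  rcases hi with ⟨rfl, rfl⟩ | ⟨rfl, rfl⟩ | ⟨rfl, rfl⟩ | ⟨rfl, rfl⟩ | ⟨rfl, rfl⟩ | ⟨rfl, rfl⟩ |
    ⟨rfl, rfl⟩ | ⟨rfl, rfl⟩ | ⟨rfl, rfl⟩ | ⟨rfl, rfl⟩ | ⟨rfl, rfl⟩ | ⟨rfl, rfl⟩
  · rw [gchain, if_pos (by omega), gp0, gp1]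
    simp
    omega
  · rw [gchain, if_neg (by omega), if_pos (by omega), gp0, gp3]
    simp
    omega
  · rw [ch_straight (by omega) (by omega), gp2, gp1]; simp; omega
  · rw [ch_straight (by omega) (by omega), gp2, gp3]; simp; omega
  · rw [ch_straight (by omega) (by omega), gp0, gp4, List.pairwise_pair]
    show -(2 * (i : ℤ) + 4) < -(2 * (i : ℤ) + 4) + 1
    omega
  · rw [ch_straight (by omega) (by omega), gp0, gp4, List.pairwise_pair]
    show -(2 * ((i + 1 : ℕ) : ℤ) + 4) < -(2 * (i : ℤ) + 4) + 1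
    push_cast; omega
  · rw [ch_straight (by omega) (by omega), gp2, gp6, List.pairwise_pair]
    show 2 * (2 * (i : ℤ) + 4) < 2 * (2 * (i : ℤ) + 4) + 5
    omega
  · rw [ch_straight (by omega) (by omega), gp2, gp6, List.pairwise_pair]
    show 2 * (2 * ((i + 1 : ℕ) : ℤ) + 4) < 2 * (2 * (i : ℤ) + 4) + 5
    push_cast; omega
  · rw [ch_straight (by omega) (by omega), gp5, gp1, List.pairwise_pair]
    show 3 * (2 * (i : ℤ) + 4) - 1 < 3 * (2 * (i : ℤ) + 4)
    omega
  · rw [ch_straight (by omega) (by omega), gp5, gp1, List.pairwise_pair]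
    show 3 * (2 * (i : ℤ) + 4) - 1 < 3 * (2 * ((i + 1 : ℕ) : ℤ) + 4)
    push_cast; omega
  · rw [ch_straight (by omega) (by omega), gp7, gp3, List.pairwise_pair]
    show 3 * (2 * (i : ℤ) + 4) - 1 < 3 * (2 * (i : ℤ) + 4)
    omega
  · rw [ch_straight (by omega) (by omega), gp7, gp3, List.pairwise_pair]
    show 3 * (2 * (i : ℤ) + 4) - 1 < 3 * (2 * ((i + 1 : ℕ) : ℤ) + 4)
    push_cast; omega

/-- the graph of nested rings has an upward planar drawing -/
def ringDrawing (n : ℕ) : Drawing (ringG n) where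
  pos v := gpos v.val
  chain u v := gchain u.val v.val
  pos_inj := fun u v h => Fin.ext (gpos_inj h)
  head_eq := by
    intro u v _
    simp only [gchain]
    split_ifs <;> rfl
  last_eq := by
    intro u v _
    simp only [gchain]
    split_ifs <;> rfl
  upward := fun u v h => chain_upward h
  edge_edge := by
    intro u v u' v' h h' hne z hz hz'
    have hne' : ¬ (u.val = u'.val ∧ v.val = v'.val) := by
      rintro ⟨h1, h2⟩
      exact hne (Prod.ext (Fin.ext h1) (Fin.ext h2))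
    obtain ⟨w, hw1, hw2, hw3⟩ := edge_edge h h' hne' hz hz'
    rcases hw1 with rfl | rfl
    · refine ⟨u, Or.inl rfl, ?_, hw3⟩
      rcases hw2 with h2 | h2
      · exact Or.inl (Fin.ext h2)
      · exact Or.inr (Fin.ext h2)
    · refine ⟨v, Or.inr rfl, ?_, hw3⟩
      rcases hw2 with h2 | h2
      · exact Or.inl (Fin.ext h2)
      · exact Or.inr (Fin.ext h2)
  edge_vertex := by
    intro u v h w hw
    rcases edge_vertex h hw with h1 | h1
    · exact Or.inl (Fin.ext h1)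
    · exact Or.inr (Fin.ext h1)

/-! ### The quantities `minArea` and `Ap` are attained -/

lemma point_box (p : ℤ × ℤ) (B : ℕ) (h : |p.1| ≤ B ∧ |p.2| ≤ B) :
    toR p ∈ Set.Icc (-(B : ℝ)) B ×ˢ Set.Icc (-(B : ℝ)) B := by
  have h1 := abs_le.1 h.1
  have h2 := abs_le.1 h.2
  refine ⟨⟨?_, ?_⟩, ⟨?_, ?_⟩⟩
  · show (-(B : ℝ)) ≤ (p.1 : ℝ)
    exact_mod_cast h1.1
  · show (p.1 : ℝ) ≤ B
    exact_mod_cast h1.2
  · show (-(B : ℝ)) ≤ (p.2 : ℝ)
    exact_mod_cast h2.1
  · show (p.2 : ℝ) ≤ B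
    exact_mod_cast h2.2

lemma chain_box (B : ℕ) : ∀ (l : List (ℤ × ℤ)), (∀ r ∈ l, |r.1| ≤ B ∧ |r.2| ≤ B) →
    chainSet l ⊆ Set.Icc (-(B : ℝ)) B ×ˢ Set.Icc (-(B : ℝ)) B
  | [], _ => by simp [chainSet]
  | [p], h => by
      simp only [chainSet, Set.singleton_subset_iff]
      exact point_box p B (h p (by simp))
  | p :: q :: l, h => by
      have h2 := chain_box B (q :: l) (fun r hr => h r (List.mem_cons_of_mem _ hr))
      have hp := point_box p B (h p (by simp))
      have hq := point_box q B (h q (by simp))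
      refine Set.union_subset ?_ h2
      exact ((convex_Icc _ _).prod (convex_Icc _ _)).segment_subset hp hq

lemma list_bound (l : List (ℤ × ℤ)) : ∃ B : ℕ, ∀ r ∈ l, |r.1| ≤ B ∧ |r.2| ≤ B := by
  induction l with
  | nil => exact ⟨0, by simp⟩
  | cons p l ih =>
    obtain ⟨B, hB⟩ := ih
    refine ⟨B + p.1.natAbs + p.2.natAbs, ?_⟩
    intro r hr
    rcases List.mem_cons.1 hr with rfl | hr
    · push_cast
      constructor
      · have := abs_nonneg r.2
        omega
      · have := abs_nonneg r.1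
        omega
    · obtain ⟨h1, h2⟩ := hB r hr
      push_cast
      constructor
      · have := abs_nonneg p.1
        have := abs_nonneg p.2
        omega
      · have := abs_nonneg p.1
        have := abs_nonneg p.2
        omega

lemma exists_box {n : ℕ} {G : BipDAG n} (D : Drawing G) :
    ∃ a b : ℤ, ∃ W H : ℕ, D.InBox a b W H := by
  have h1 : ∀ u v, ∃ B : ℕ, ∀ r ∈ D.chain u v, |r.1| ≤ B ∧ |r.2| ≤ B := fun u v => list_bound _
  choose B hB using h1
  have h2 : ∀ u, ∃ B : ℕ, ∀ r ∈ [D.pos u], |r.1| ≤ B ∧ |r.2| ≤ B := fun u => list_bound _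
  choose C hC using h2
  let K : ℕ := (∑ u, ∑ v, B u v) + ∑ u, C u
  have hBK : ∀ u v, B u v ≤ K := by
    intro u v
    have h3 : B u v ≤ ∑ v, B u v :=
      Finset.single_le_sum (f := fun v => B u v) (fun _ _ => Nat.zero_le _) (Finset.mem_univ v)
    have h4 : ∑ v, B u v ≤ ∑ u, ∑ v, B u v :=
      Finset.single_le_sum (f := fun u => ∑ v, B u v) (fun _ _ => Nat.zero_le _)
        (Finset.mem_univ u)
    exact (h3.trans h4).trans (Nat.le_add_right _ _)
  have hCK : ∀ u, C u ≤ K := by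
    intro u
    have h3 : C u ≤ ∑ u, C u :=
      Finset.single_le_sum (f := fun v => C v) (fun _ _ => Nat.zero_le _) (Finset.mem_univ u)
    exact h3.trans (Nat.le_add_left _ _)
  refine ⟨-(K : ℤ), -(K : ℤ), 2 * K, 2 * K, ?_, ?_⟩
  · intro w
    have h6 := point_box (D.pos w) K (by
      obtain ⟨h3, h4⟩ := hC w (D.pos w) (by simp)
      have h5 : ((C w : ℕ) : ℤ) ≤ K := by exact_mod_cast hCK w
      exact ⟨h3.trans h5, h4.trans h5⟩)
    push_cast
    have e : (-(K : ℝ)) + 2 * (K : ℝ) = K := by ring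
    rw [e]
    exact h6
  · intro u v _
    have := chain_box K (D.chain u v) (fun r hr => by
      obtain ⟨h3, h4⟩ := hB u v r hr
      have h5 : ((B u v : ℕ) : ℤ) ≤ K := by exact_mod_cast hBK u v
      exact ⟨h3.trans h5, h4.trans h5⟩)
    push_cast
    have e : (-(K : ℝ)) + 2 * (K : ℝ) = K := by ring
    rw [e]
    exact this

instance (n : ℕ) : Finite (BipDAG n) := by
  have : Function.Injective (fun G : BipDAG n => G.adj) := by
    intro G G' h
    cases G
    cases G'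
    simp only at h
    subst h
    rfl
  exact Finite.of_injective _ this

lemma Ap_bdd (n : ℕ) : BddAbove {A : ℕ | ∃ G : BipDAG n, Nonempty (Drawing G) ∧ A = minArea G} := by
  refine Set.Finite.bddAbove ?_
  refine (Set.finite_range (fun G : BipDAG n => minArea G)).subset ?_
  rintro A ⟨G, _, rfl⟩
  exact ⟨G, rfl⟩

theorem main (n : ℕ) (hn : 96 ≤ n) :
    n ^ 2 ≤ 1024 * Ap n ∧ ∃ G : BipDAG n, Nonempty (Drawing G) ∧
      ∀ (D : Drawing G) (a b : ℤ) (W H : ℕ), D.InBox a b W H → n ^ 2 ≤ 1024 * (W * H) := by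
  have hlow : ∀ (D : Drawing (ringG n)) (a b : ℤ) (W H : ℕ), D.InBox a b W H →
      n ^ 2 ≤ 1024 * (W * H) := fun D a b W H hbox => area_lower (by omega) hn D hbox
  refine ⟨?_, ringG n, ⟨ringDrawing n⟩, hlow⟩
  have h1 : minArea (ringG n) ≤ Ap n := le_csSup (Ap_bdd n) ⟨ringG n, ⟨ringDrawing n⟩, rfl⟩
  have h2 : {A : ℕ | ∃ D : Drawing (ringG n), ∃ a b : ℤ, ∃ W H : ℕ, D.InBox a b W H ∧
      A = W * H}.Nonempty := by
    obtain ⟨a, b, W, H, h⟩ := exists_box (ringDrawing n)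
    exact ⟨W * H, ringDrawing n, a, b, W, H, h, rfl⟩
  obtain ⟨D, a, b, W, H, h, hA⟩ := Nat.sInf_mem h2
  have h3 := hlow D a b W H h
  rw [← hA] at h3
  change n ^ 2 ≤ 1024 * minArea (ringG n) at h3
  omega

end Pool.Agent.X64.Bip
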