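import Pool.Agent.X64.Bip.Sides
import Pool.Agent.X64.Bip.Chain

namespace Pool.Agent.X64.Bip

/-- The edges of the infinite graph of nested rings on `ℕ`. The vertex `8 i + s` is of layer `i`
and of type `s`: `0 = a, 1 = b, 2 = c, 3 = d, 4 = α, 5 = β, 6 = γ, 7 = δ`. -/
def ringAdj (u v : ℕ) : Prop :=
  (u / 8 = v / 8 ∧
    ((u % 8 = 0 ∧ v % 8 = 1) ∨ (u % 8 = 0 ∧ v % 8 = 3) ∨ (u % 8 = 2 ∧ v % 8 = 1) ∨
      (u % 8 = 2 ∧ v % 8 = 3) ∨ (u % 8 = 0 ∧ v % 8 = 4) ∨ (u % 8 = 2 ∧ v % 8 = 6) ∨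
      (u % 8 = 5 ∧ v % 8 = 1) ∨ (u % 8 = 7 ∧ v % 8 = 3))) ∨
  (u / 8 = v / 8 + 1 ∧ ((u % 8 = 0 ∧ v % 8 = 4) ∨ (u % 8 = 2 ∧ v % 8 = 6))) ∨
  (v / 8 = u / 8 + 1 ∧ ((u % 8 = 5 ∧ v % 8 = 1) ∨ (u % 8 = 7 ∧ v % 8 = 3)))

/-- The graph of nested rings with `n` vertices. -/
def ringG (n : ℕ) : BipDAG n where
  adj u v := ringAdj u.val v.val
  bip := by
    refine ⟨{u | u.val % 8 = 0 ∨ u.val % 8 = 2 ∨ u.val % 8 = 5 ∨ u.val % 8 = 7}, ?_⟩
    intro u v h
    simp only [Set.mem_ofPred_eq]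
    unfold ringAdj at h
    omega

lemma BipDAG.ne {n : ℕ} (G : BipDAG n) (u v : Fin n) (h : G.adj u v) : u ≠ v := by
  rintro rfl
  obtain ⟨V₁, h1⟩ := G.bip
  exact (h1 u u h).2 (h1 u u h).1

open Classical in
lemma exists_mono {n : ℕ} {G : BipDAG n} (D : Drawing G) :
    ∃ M : Mono (Fin n) G.adj, (∀ w, M.X w = (D.pos w).1) ∧ (∀ w, M.Y w = (D.pos w).2) ∧
      (∀ u v, G.adj u v → ∀ t : ℝ, M.Y u ≤ t → t ≤ M.Y v →
        (M.F u v t, t) ∈ chainSet (D.chain u v)) ∧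
      (∀ u v, G.adj u v → ∀ r ∈ D.chain u v, (r.1 : ℝ) = M.F u v r.2 ∧ M.Y u ≤ r.2 ∧
        r.2 ≤ M.Y v) := by
  have hF : ∀ u v, ∃ F : ℝ → ℝ, G.adj u v → (Continuous F ∧ (D.pos u).2 ≤ (D.pos v).2 ∧
      (∀ z ∈ chainSet (D.chain u v), z.1 = F z.2 ∧ ((D.pos u).2 : ℝ) ≤ z.2 ∧
        z.2 ≤ (D.pos v).2) ∧
      (∀ t : ℝ, ((D.pos u).2 : ℝ) ≤ t → t ≤ (D.pos v).2 →
        (F t, t) ∈ chainSet (D.chain u v))) := by
    intro u v
    by_cases h : G.adj u v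
    · obtain ⟨F, hF⟩ := exists_fun (D.chain u v) (D.pos u) (D.pos v) (D.head_eq u v h)
        (D.last_eq u v h) (D.upward u v h)
      exact ⟨F, fun _ => hF⟩
    · exact ⟨fun _ => 0, fun h' => absurd h' h⟩
  choose F hF using hF
  have hhead : ∀ u v, G.adj u v → D.pos u ∈ D.chain u v := by
    intro u v h
    exact List.mem_of_mem_head? (by rw [D.head_eq u v h]; simp)
  have hlast : ∀ u v, G.adj u v → D.pos v ∈ D.chain u v := by
    intro u v h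
    exact List.mem_of_getLast? (by rw [D.last_eq u v h])
  have hlo : ∀ u v, G.adj u v → F u v (D.pos u).2 = (D.pos u).1 := by
    intro u v h
    exact ((hF u v h).2.2.1 _ (mem_chainSet_of_mem _ _ (hhead u v h))).1.symm
  have hhi : ∀ u v, G.adj u v → F u v (D.pos v).2 = (D.pos v).1 := by
    intro u v h
    exact ((hF u v h).2.2.1 _ (mem_chainSet_of_mem _ _ (hlast u v h))).1.symm
  have gap : ∀ u v : Fin n, ((D.pos u).2 : ℝ) < (D.pos v).2 →
      ((D.pos u).2 : ℝ) + 1 ≤ (D.pos v).2 := by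
    intro u v h
    have : (D.pos u).2 < (D.pos v).2 := by exact_mod_cast h
    exact_mod_cast this
  have up : ∀ u v, G.adj u v → ((D.pos u).2 : ℝ) + 1 ≤ (D.pos v).2 := by
    intro u v h
    apply gap
    have h1 := (hF u v h).2.1
    rcases lt_or_eq_of_le h1 with h2 | h2
    · exact_mod_cast h2
    · exfalso
      have h3 := hlo u v h
      have h4 := hhi u v h
      rw [← h2] at h4
      have h5 : (D.pos u).1 = (D.pos v).1 := by
        have : ((D.pos u).1 : ℝ) = (D.pos v).1 := by rw [← h3, ← h4]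
        exact_mod_cast this
      exact G.ne u v h (D.pos_inj (Prod.ext h5 h2))
  refine ⟨{ X := fun w => (D.pos w).1, Y := fun w => (D.pos w).2, F := F,
            cont := fun u v h => (hF u v h).1
            lo := hlo, hi := hhi, up := up, disj := ?_, gap := gap },
    fun _ => rfl, fun _ => rfl, fun u v h t h1 h2 => (hF u v h).2.2.2 t h1 h2, ?_⟩
  · intro u v p q huv hpq hne t h1 h2 h3 h4 heq
    have z1 := (hF u v huv).2.2.2 t h1 h2
    have z2 := (hF p q hpq).2.2.2 t h3 h4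
    rw [← heq] at z2
    obtain ⟨w, hw1, hw2, hw3⟩ := D.edge_edge u v p q huv hpq hne _ z1 z2
    refine ⟨w, hw1, hw2, ?_⟩
    have := congrArg Prod.snd hw3
    exact this.symm
  · intro u v h r hr
    exact (hF u v h).2.2.1 _ (mem_chainSet_of_mem _ _ hr)

end Pool.Agent.X64.Bip
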