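import Mathlib

namespace Pool.Agent.X64.Bip

open Classical in
/-- `0`/`1` in `ZMod 2` -/
noncomputable def ind (P : Prop) : ZMod 2 := if P then 1 else 0

lemma ind_true {P : Prop} (h : P) : ind P = 1 := by simp [ind, h]
lemma ind_false {P : Prop} (h : ¬ P) : ind P = 0 := by simp [ind, h]

/-- A drawing with vertically monotone curves. -/
structure Mono (V : Type*) (adj : V → V → Prop) where
  X : V → ℝ
  Y : V → ℝ
  F : V → V → ℝ → ℝ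
  cont : ∀ u v, adj u v → Continuous (F u v)
  lo : ∀ u v, adj u v → F u v (Y u) = X u
  hi : ∀ u v, adj u v → F u v (Y v) = X v
  up : ∀ u v, adj u v → Y u + 1 ≤ Y v
  disj : ∀ u v p q, adj u v → adj p q → (u, v) ≠ (p, q) → ∀ t, Y u ≤ t → t ≤ Y v → Y p ≤ t →
    t ≤ Y q → F u v t = F p q t → ∃ w, (w = u ∨ w = v) ∧ (w = p ∨ w = q) ∧ Y w = t
  gap : ∀ u v, Y u < Y v → Y u + 1 ≤ Y v

variable {V : Type*} {adj : V → V → Prop} (M : Mono V adj)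

namespace Mono

/-- the edge `(p, q)` is active at height `t` and passes to the left of `x` -/
noncomputable def e (p q : V) (t x : ℝ) : ZMod 2 :=
  ind (M.Y p ≤ t ∧ t < M.Y q ∧ M.F p q t < x)

/-- the vertex `w` is at height in `(t₀, t₁]` and to the left of the curve `g` -/
noncomputable def h (g : ℝ → ℝ) (t₀ t₁ : ℝ) (w : V) : ZMod 2 :=
  ind (t₀ < M.Y w ∧ M.Y w ≤ t₁ ∧ M.X w < g (M.Y w))

lemma sign_const {a b : ℝ} {f g : ℝ → ℝ} (hf : Continuous f) (hg : Continuous g)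
    (hno : ∀ t, a ≤ t → t ≤ b → f t ≠ g t) {s t : ℝ} (hs : a ≤ s ∧ s ≤ b) (ht : a ≤ t ∧ t ≤ b)
    (h : f s < g s) : f t < g t := by
  by_contra hc
  have hc' : g t ≤ f t := not_lt.1 hc
  obtain ⟨c, hc1, hc2⟩ := isPreconnected_Icc.intermediate_value₂ (s := Set.Icc a b)
    (a := s) (b := t) hs ht hf.continuousOn hg.continuousOn h.le hc'
  exact hno c hc1.1 hc1.2 hc2

lemma edge_step {p q : V} (hpq : adj p q) {g : ℝ → ℝ} (hg : Continuous g) {t₀ t₁ : ℝ}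
    (h01 : t₀ ≤ t₁)
    (hno : ∀ t, t₀ ≤ t → t ≤ t₁ → M.Y p ≤ t → t ≤ M.Y q → M.F p q t ≠ g t) :
    M.e p q t₁ (g t₁) + M.e p q t₀ (g t₀) = M.h g t₀ t₁ p + M.h g t₀ t₁ q := by
  have hup : M.Y p < M.Y q := by linarith [M.up p q hpq]
  by_cases c1 : t₁ < M.Y p
  · rw [e, e, h, h, ind_false, ind_false, ind_false, ind_false]
    · rintro ⟨_, h2, _⟩; linarith
    · rintro ⟨_, h2, _⟩; linarith
    · rintro ⟨h2, _, _⟩; linarith
    · rintro ⟨h2, _, _⟩; linarith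
  by_cases c2 : M.Y q < t₀
  · rw [e, e, h, h, ind_false, ind_false, ind_false, ind_false]
    · rintro ⟨h2, _, _⟩; linarith
    · rintro ⟨h2, _, _⟩; linarith
    · rintro ⟨_, h2, _⟩; linarith
    · rintro ⟨_, h2, _⟩; linarith
  push Not at c1 c2
  -- the common interval
  have key : ∀ s t, (t₀ ≤ s ∧ s ≤ t₁ ∧ M.Y p ≤ s ∧ s ≤ M.Y q) →
      (t₀ ≤ t ∧ t ≤ t₁ ∧ M.Y p ≤ t ∧ t ≤ M.Y q) → M.F p q s < g s → M.F p q t < g t := by
    intro s t hs ht hlt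
    refine sign_const (a := max t₀ (M.Y p)) (b := min t₁ (M.Y q)) (M.cont p q hpq) hg ?_ ?_ ?_ hlt
    · intro r hr1 hr2
      exact hno r (le_trans (le_max_left _ _) hr1) (le_trans hr2 (min_le_left _ _))
        (le_trans (le_max_right _ _) hr1) (le_trans hr2 (min_le_right _ _))
    · exact ⟨max_le hs.1 hs.2.2.1, le_min hs.2.1 hs.2.2.2⟩
    · exact ⟨max_le ht.1 ht.2.2.1, le_min ht.2.1 ht.2.2.2⟩
  have ex : ∃ s₀, t₀ ≤ s₀ ∧ s₀ ≤ t₁ ∧ M.Y p ≤ s₀ ∧ s₀ ≤ M.Y q := by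
    refine ⟨max t₀ (M.Y p), le_max_left _ _, max_le h01 c1, le_max_right _ _, max_le c2 hup.le⟩
  obtain ⟨s₀, hs₀⟩ := ex
  by_cases hσ : M.F p q s₀ < g s₀
  · have all : ∀ t, (t₀ ≤ t ∧ t ≤ t₁ ∧ M.Y p ≤ t ∧ t ≤ M.Y q) → M.F p q t < g t :=
      fun t ht => key s₀ t hs₀ ht hσ
    have e1 : M.e p q t₁ (g t₁) = ind (M.Y p ≤ t₁ ∧ t₁ < M.Y q) := by
      rw [e]
      congr 1
      refine propext ⟨fun h => ⟨h.1, h.2.1⟩, fun h => ⟨h.1, h.2, all t₁ ⟨h01, le_refl _, h.1, h.2.le⟩⟩⟩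
    have e0 : M.e p q t₀ (g t₀) = ind (M.Y p ≤ t₀ ∧ t₀ < M.Y q) := by
      rw [e]
      congr 1
      refine propext ⟨fun h => ⟨h.1, h.2.1⟩, fun h => ⟨h.1, h.2, all t₀ ⟨le_refl _, h01, h.1, h.2.le⟩⟩⟩
    have h1 : M.h g t₀ t₁ p = ind (t₀ < M.Y p ∧ M.Y p ≤ t₁) := by
      rw [h]
      congr 1
      refine propext ⟨fun h => ⟨h.1, h.2.1⟩, fun h => ⟨h.1, h.2, ?_⟩⟩
      rw [← M.lo p q hpq]
      exact all _ ⟨h.1.le, h.2, le_refl _, hup.le⟩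
    have h2 : M.h g t₀ t₁ q = ind (t₀ < M.Y q ∧ M.Y q ≤ t₁) := by
      rw [h]
      congr 1
      refine propext ⟨fun h => ⟨h.1, h.2.1⟩, fun h => ⟨h.1, h.2, ?_⟩⟩
      rw [← M.hi p q hpq]
      exact all _ ⟨h.1.le, h.2, hup.le, le_refl _⟩
    rw [e1, e0, h1, h2]
    by_cases a1 : M.Y p ≤ t₀
    · rw [ind_false (P := t₀ < M.Y p ∧ M.Y p ≤ t₁) (by rintro ⟨h, _⟩; linarith)]
      by_cases a2 : t₁ < M.Y q
      · rw [ind_true ⟨c1, a2⟩, ind_true ⟨a1, by linarith⟩, ind_false (by rintro ⟨_, h⟩; linarith)]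
        decide
      · rw [ind_false (by rintro ⟨_, h⟩; linarith)]
        by_cases a3 : t₀ < M.Y q
        · rw [ind_true ⟨a1, a3⟩, ind_true ⟨a3, by linarith⟩]
        · rw [ind_false (by rintro ⟨_, h⟩; linarith), ind_false (by rintro ⟨h, _⟩; linarith)]
    · push Not at a1
      rw [ind_true (P := t₀ < M.Y p ∧ M.Y p ≤ t₁) ⟨a1, c1⟩,
        ind_false (P := M.Y p ≤ t₀ ∧ t₀ < M.Y q) (by rintro ⟨h, _⟩; linarith)]
      by_cases a2 : t₁ < M.Y q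
      · rw [ind_true ⟨c1, a2⟩, ind_false (by rintro ⟨_, h⟩; linarith)]
      · rw [ind_false (by rintro ⟨_, h⟩; linarith), ind_true ⟨by linarith, by linarith⟩]
        decide
  · have all : ∀ t, (t₀ ≤ t ∧ t ≤ t₁ ∧ M.Y p ≤ t ∧ t ≤ M.Y q) → ¬ M.F p q t < g t :=
      fun t ht h => hσ (key t s₀ ht hs₀ h)
    rw [e, e, h, h, ind_false, ind_false, ind_false, ind_false]
    · rintro ⟨h1, h2, h3⟩
      rw [← M.hi p q hpq] at h3
      exact all _ ⟨h1.le, h2, hup.le, le_refl _⟩ h3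
    · rintro ⟨h1, h2, h3⟩
      rw [← M.lo p q hpq] at h3
      exact all _ ⟨h1.le, h2, le_refl _, hup.le⟩ h3
    · rintro ⟨h1, h2, h3⟩
      exact all _ ⟨le_refl _, h01, h1, h2.le⟩ h3
    · rintro ⟨h1, h2, h3⟩
      exact all _ ⟨h01, le_refl _, h1, h2.le⟩ h3

end Mono

end Pool.Agent.X64.Bip
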