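import Pool.Agent.X64.Bip.Draw

set_option maxHeartbeats 1000000

namespace Pool.Agent.X64.Bip

lemma edge_vertex_aux {u v w i : ℕ} (hi : Loc u v ((gpos w).1 : ℝ) ((gpos w).2 : ℝ) i) :
    w = u ∨ w = v := by
  obtain ⟨j, hj⟩ : ∃ j, w = 8 * j ∨ w = 8 * j + 1 ∨ w = 8 * j + 2 ∨ w = 8 * j + 3 ∨
      w = 8 * j + 4 ∨ w = 8 * j + 5 ∨ w = 8 * j + 6 ∨ w = 8 * j + 7 := ⟨w / 8, by omega⟩
  rcases hj with rfl | rfl | rfl | rfl | rfl | rfl | rfl | rfl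
  · rw [gp0] at hi
    rcases hi with ⟨rfl, rfl, ⟨h1, h2, h3⟩ | ⟨h1, h2, h3⟩⟩ | ⟨rfl, rfl, ⟨h1, h2, h3⟩ | ⟨h1, h2, h3⟩⟩ |
      ⟨rfl, rfl, h1, h2, h3⟩ | ⟨rfl, rfl, h1, h2, h3⟩ | ⟨rfl, rfl, h1, h2, h3⟩ |
      ⟨rfl, rfl, h1, h2, h3⟩ | ⟨rfl, rfl, h1, h2, h3⟩ | ⟨rfl, rfl, h1, h2, h3⟩ |
      ⟨rfl, rfl, h1, h2, h3⟩ | ⟨rfl, rfl, h1, h2, h3⟩ | ⟨rfl, rfl, h1, h2, h3⟩ |
      ⟨rfl, rfl, h1, h2, h3⟩ <;> first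
        | (norm_cast at h1 h2 h3; omega)
        | (push_cast at h1 h2 h3; exfalso
           linarith [Nat.cast_nonneg (α := ℝ) i, Nat.cast_nonneg (α := ℝ) j])
  · rw [gp1] at hi
    rcases hi with ⟨rfl, rfl, ⟨h1, h2, h3⟩ | ⟨h1, h2, h3⟩⟩ | ⟨rfl, rfl, ⟨h1, h2, h3⟩ | ⟨h1, h2, h3⟩⟩ |
      ⟨rfl, rfl, h1, h2, h3⟩ | ⟨rfl, rfl, h1, h2, h3⟩ | ⟨rfl, rfl, h1, h2, h3⟩ |
      ⟨rfl, rfl, h1, h2, h3⟩ | ⟨rfl, rfl, h1, h2, h3⟩ | ⟨rfl, rfl, h1, h2, h3⟩ |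
      ⟨rfl, rfl, h1, h2, h3⟩ | ⟨rfl, rfl, h1, h2, h3⟩ | ⟨rfl, rfl, h1, h2, h3⟩ |
      ⟨rfl, rfl, h1, h2, h3⟩ <;> first
        | (norm_cast at h1 h2 h3; omega)
        | (push_cast at h1 h2 h3; exfalso
           linarith [Nat.cast_nonneg (α := ℝ) i, Nat.cast_nonneg (α := ℝ) j])
  · rw [gp2] at hi
    rcases hi with ⟨rfl, rfl, ⟨h1, h2, h3⟩ | ⟨h1, h2, h3⟩⟩ | ⟨rfl, rfl, ⟨h1, h2, h3⟩ | ⟨h1, h2, h3⟩⟩ |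
      ⟨rfl, rfl, h1, h2, h3⟩ | ⟨rfl, rfl, h1, h2, h3⟩ | ⟨rfl, rfl, h1, h2, h3⟩ |
      ⟨rfl, rfl, h1, h2, h3⟩ | ⟨rfl, rfl, h1, h2, h3⟩ | ⟨rfl, rfl, h1, h2, h3⟩ |
      ⟨rfl, rfl, h1, h2, h3⟩ | ⟨rfl, rfl, h1, h2, h3⟩ | ⟨rfl, rfl, h1, h2, h3⟩ |
      ⟨rfl, rfl, h1, h2, h3⟩ <;> first
        | (norm_cast at h1 h2 h3; omega)
        | (push_cast at h1 h2 h3; exfalso
           linarith [Nat.cast_nonneg (α := ℝ) i, Nat.cast_nonneg (α := ℝ) j])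
  · rw [gp3] at hi
    rcases hi with ⟨rfl, rfl, ⟨h1, h2, h3⟩ | ⟨h1, h2, h3⟩⟩ | ⟨rfl, rfl, ⟨h1, h2, h3⟩ | ⟨h1, h2, h3⟩⟩ |
      ⟨rfl, rfl, h1, h2, h3⟩ | ⟨rfl, rfl, h1, h2, h3⟩ | ⟨rfl, rfl, h1, h2, h3⟩ |
      ⟨rfl, rfl, h1, h2, h3⟩ | ⟨rfl, rfl, h1, h2, h3⟩ | ⟨rfl, rfl, h1, h2, h3⟩ |
      ⟨rfl, rfl, h1, h2, h3⟩ | ⟨rfl, rfl, h1, h2, h3⟩ | ⟨rfl, rfl, h1, h2, h3⟩ |
      ⟨rfl, rfl, h1, h2, h3⟩ <;> first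
        | (norm_cast at h1 h2 h3; omega)
        | (push_cast at h1 h2 h3; exfalso
           linarith [Nat.cast_nonneg (α := ℝ) i, Nat.cast_nonneg (α := ℝ) j])
  · rw [gp4] at hi
    rcases hi with ⟨rfl, rfl, ⟨h1, h2, h3⟩ | ⟨h1, h2, h3⟩⟩ | ⟨rfl, rfl, ⟨h1, h2, h3⟩ | ⟨h1, h2, h3⟩⟩ |
      ⟨rfl, rfl, h1, h2, h3⟩ | ⟨rfl, rfl, h1, h2, h3⟩ | ⟨rfl, rfl, h1, h2, h3⟩ |
      ⟨rfl, rfl, h1, h2, h3⟩ | ⟨rfl, rfl, h1, h2, h3⟩ | ⟨rfl, rfl, h1, h2, h3⟩ |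
      ⟨rfl, rfl, h1, h2, h3⟩ | ⟨rfl, rfl, h1, h2, h3⟩ | ⟨rfl, rfl, h1, h2, h3⟩ |
      ⟨rfl, rfl, h1, h2, h3⟩ <;> first
        | (norm_cast at h1 h2 h3; omega)
        | (push_cast at h1 h2 h3; exfalso
           linarith [Nat.cast_nonneg (α := ℝ) i, Nat.cast_nonneg (α := ℝ) j])
  · rw [gp5] at hi
    rcases hi with ⟨rfl, rfl, ⟨h1, h2, h3⟩ | ⟨h1, h2, h3⟩⟩ | ⟨rfl, rfl, ⟨h1, h2, h3⟩ | ⟨h1, h2, h3⟩⟩ |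
      ⟨rfl, rfl, h1, h2, h3⟩ | ⟨rfl, rfl, h1, h2, h3⟩ | ⟨rfl, rfl, h1, h2, h3⟩ |
      ⟨rfl, rfl, h1, h2, h3⟩ | ⟨rfl, rfl, h1, h2, h3⟩ | ⟨rfl, rfl, h1, h2, h3⟩ |
      ⟨rfl, rfl, h1, h2, h3⟩ | ⟨rfl, rfl, h1, h2, h3⟩ | ⟨rfl, rfl, h1, h2, h3⟩ |
      ⟨rfl, rfl, h1, h2, h3⟩ <;> first
        | (norm_cast at h1 h2 h3; omega)
        | (push_cast at h1 h2 h3; exfalso
           linarith [Nat.cast_nonneg (α := ℝ) i, Nat.cast_nonneg (α := ℝ) j])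
  · rw [gp6] at hi
    rcases hi with ⟨rfl, rfl, ⟨h1, h2, h3⟩ | ⟨h1, h2, h3⟩⟩ | ⟨rfl, rfl, ⟨h1, h2, h3⟩ | ⟨h1, h2, h3⟩⟩ |
      ⟨rfl, rfl, h1, h2, h3⟩ | ⟨rfl, rfl, h1, h2, h3⟩ | ⟨rfl, rfl, h1, h2, h3⟩ |
      ⟨rfl, rfl, h1, h2, h3⟩ | ⟨rfl, rfl, h1, h2, h3⟩ | ⟨rfl, rfl, h1, h2, h3⟩ |
      ⟨rfl, rfl, h1, h2, h3⟩ | ⟨rfl, rfl, h1, h2, h3⟩ | ⟨rfl, rfl, h1, h2, h3⟩ |
      ⟨rfl, rfl, h1, h2, h3⟩ <;> first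
        | (norm_cast at h1 h2 h3; omega)
        | (push_cast at h1 h2 h3; exfalso
           linarith [Nat.cast_nonneg (α := ℝ) i, Nat.cast_nonneg (α := ℝ) j])
  · rw [gp7] at hi
    rcases hi with ⟨rfl, rfl, ⟨h1, h2, h3⟩ | ⟨h1, h2, h3⟩⟩ | ⟨rfl, rfl, ⟨h1, h2, h3⟩ | ⟨h1, h2, h3⟩⟩ |
      ⟨rfl, rfl, h1, h2, h3⟩ | ⟨rfl, rfl, h1, h2, h3⟩ | ⟨rfl, rfl, h1, h2, h3⟩ |
      ⟨rfl, rfl, h1, h2, h3⟩ | ⟨rfl, rfl, h1, h2, h3⟩ | ⟨rfl, rfl, h1, h2, h3⟩ |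
      ⟨rfl, rfl, h1, h2, h3⟩ | ⟨rfl, rfl, h1, h2, h3⟩ | ⟨rfl, rfl, h1, h2, h3⟩ |
      ⟨rfl, rfl, h1, h2, h3⟩ <;> first
        | (norm_cast at h1 h2 h3; omega)
        | (push_cast at h1 h2 h3; exfalso
           linarith [Nat.cast_nonneg (α := ℝ) i, Nat.cast_nonneg (α := ℝ) j])

lemma edge_vertex {u v w : ℕ} (h : ringAdj u v) (hw : toR (gpos w) ∈ chainSet (gchain u v)) :
    w = u ∨ w = v := by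
  obtain ⟨i, hi⟩ := loc h hw
  exact edge_vertex_aux hi

/-- level at most `R` -/
def Lev (R x y : ℝ) : Prop := |x| ≤ R ∧ |x| - y ≤ R ∧ y - |x| ≤ 2 * R

lemma lower {u v j : ℕ} {x y R : ℝ} (h : Loc u v x y j) (hL : Lev R x y) : 2 * (j : ℝ) + 4 ≤ R := by
  obtain ⟨l1, l2, l3⟩ := hL
  have hj : (0 : ℝ) ≤ j := Nat.cast_nonneg j
  rcases h with ⟨rfl, rfl, ⟨h1, h2, h3⟩ | ⟨h1, h2, h3⟩⟩ | ⟨rfl, rfl, ⟨h1, h2, h3⟩ | ⟨h1, h2, h3⟩⟩ |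
      ⟨rfl, rfl, h1, h2, h3⟩ | ⟨rfl, rfl, h1, h2, h3⟩ | ⟨rfl, rfl, h1, h2, h3⟩ |
      ⟨rfl, rfl, h1, h2, h3⟩ | ⟨rfl, rfl, h1, h2, h3⟩ | ⟨rfl, rfl, h1, h2, h3⟩ |
      ⟨rfl, rfl, h1, h2, h3⟩ | ⟨rfl, rfl, h1, h2, h3⟩ | ⟨rfl, rfl, h1, h2, h3⟩ |
      ⟨rfl, rfl, h1, h2, h3⟩ <;>
    rcases abs_cases x with ⟨hx, hx'⟩ | ⟨hx, hx'⟩ <;> rw [hx] at l1 l2 l3 <;> linarith

lemma upper {u v i : ℕ} {x y : ℝ} (h : Loc u v x y i) :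
    (∃ R, R < 2 * (i : ℝ) + 6 ∧ Lev R x y) ∨ (x = (gpos u).1 ∧ y = (gpos u).2) ∨
      (x = (gpos v).1 ∧ y = (gpos v).2) := by
  have hi : (0 : ℝ) ≤ i := Nat.cast_nonneg i
  rcases h with ⟨rfl, rfl, ⟨h1, h2, h3⟩ | ⟨h1, h2, h3⟩⟩ | ⟨rfl, rfl, ⟨h1, h2, h3⟩ | ⟨h1, h2, h3⟩⟩ |
      ⟨rfl, rfl, h1, h2, h3⟩ | ⟨rfl, rfl, h1, h2, h3⟩ | ⟨rfl, rfl, h1, h2, h3⟩ |
      ⟨rfl, rfl, h1, h2, h3⟩ | ⟨rfl, rfl, h1, h2, h3⟩ | ⟨rfl, rfl, h1, h2, h3⟩ |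
      ⟨rfl, rfl, h1, h2, h3⟩ | ⟨rfl, rfl, h1, h2, h3⟩ | ⟨rfl, rfl, h1, h2, h3⟩ |
      ⟨rfl, rfl, h1, h2, h3⟩
  · left; refine ⟨2 * i + 4, by linarith, ?_⟩
    unfold Lev; rw [abs_of_nonpos (by linarith)]; refine ⟨?_, ?_, ?_⟩ <;> linarith
  · left; refine ⟨2 * i + 4, by linarith, ?_⟩
    unfold Lev; rw [abs_of_nonpos (by linarith)]; refine ⟨?_, ?_, ?_⟩ <;> linarith
  · left; refine ⟨2 * i + 4, by linarith, ?_⟩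
    unfold Lev; rw [abs_of_nonneg (by linarith)]; refine ⟨?_, ?_, ?_⟩ <;> linarith
  · left; refine ⟨2 * i + 4, by linarith, ?_⟩
    unfold Lev; rw [abs_of_nonneg (by linarith)]; refine ⟨?_, ?_, ?_⟩ <;> linarith
  · left; refine ⟨2 * i + 4, by linarith, ?_⟩
    unfold Lev; rw [abs_of_nonpos (by linarith)]; refine ⟨?_, ?_, ?_⟩ <;> linarith
  · left; refine ⟨2 * i + 4, by linarith, ?_⟩
    unfold Lev; rw [abs_of_nonneg (by linarith)]; refine ⟨?_, ?_, ?_⟩ <;> linarith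
  · left; refine ⟨2 * i + 5, by linarith, ?_⟩
    unfold Lev; rw [abs_of_nonpos (by linarith)]; refine ⟨?_, ?_, ?_⟩ <;> linarith
  · rcases eq_or_lt_of_le h3 with h | h
    · right; left
      rw [gp0]
      push_cast
      constructor <;> linarith
    · left; refine ⟨2 * i + 6 + x / 2, by linarith, ?_⟩
      unfold Lev; rw [abs_of_nonpos (by linarith)]; refine ⟨?_, ?_, ?_⟩ <;> linarith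
  · left; refine ⟨2 * i + 11 / 2, by linarith, ?_⟩
    unfold Lev; rw [abs_of_nonpos (by linarith)]; refine ⟨?_, ?_, ?_⟩ <;> linarith
  · rcases eq_or_lt_of_le h3 with h | h
    · right; left
      rw [gp2]
      push_cast
      constructor <;> linarith
    · left; refine ⟨2 * i + 6 + x / 4, by linarith, ?_⟩
      unfold Lev; rw [abs_of_nonpos (by linarith)]; refine ⟨?_, ?_, ?_⟩ <;> linarith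
  · left; refine ⟨2 * i + 5, by linarith, ?_⟩
    unfold Lev; rw [abs_of_nonpos (by linarith)]; refine ⟨?_, ?_, ?_⟩ <;> linarith
  · rcases eq_or_lt_of_le h2 with h | h
    · right; right
      rw [gp1]
      push_cast
      constructor <;> linarith
    · left; refine ⟨-x, by linarith, ?_⟩
      unfold Lev; rw [abs_of_nonpos (by linarith)]; refine ⟨?_, ?_, ?_⟩ <;> linarith
  · left; refine ⟨2 * i + 5, by linarith, ?_⟩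
    unfold Lev; rw [abs_of_nonneg (by linarith)]; refine ⟨?_, ?_, ?_⟩ <;> linarith
  · rcases eq_or_lt_of_le h2 with h | h
    · right; right
      rw [gp3]
      push_cast
      constructor <;> linarith
    · left; refine ⟨x, by linarith, ?_⟩
      unfold Lev; rw [abs_of_nonneg (by linarith)]; refine ⟨?_, ?_, ?_⟩ <;> linarith

end Pool.Agent.X64.Bip
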