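import Pool.Agent.X64.Bip.Planar

set_option maxHeartbeats 4000000

namespace Pool.Agent.X64.Bip

lemma same_layer {u v u' v' i : ℕ} {x y : ℝ} (h : Loc u v x y i) (h' : Loc u' v' x y i)
    (hne : ¬ (u = u' ∧ v = v')) :
    (x = (gpos u).1 ∧ y = (gpos u).2) ∨ (x = (gpos v).1 ∧ y = (gpos v).2) := by
  have hi : (0 : ℝ) ≤ i := Nat.cast_nonneg i
  rcases h with ⟨rfl, rfl, ⟨h1, h2, h3⟩ | ⟨h1, h2, h3⟩⟩ |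
      ⟨rfl, rfl, ⟨h1, h2, h3⟩ | ⟨h1, h2, h3⟩⟩ | ⟨rfl, rfl, h1, h2, h3⟩ |
      ⟨rfl, rfl, h1, h2, h3⟩ |
      ⟨rfl, rfl, h1, h2, h3⟩ |
      ⟨rfl, rfl, h1, h2, h3⟩ |
      ⟨rfl, rfl, h1, h2, h3⟩ |
      ⟨rfl, rfl, h1, h2, h3⟩ |
      ⟨rfl, rfl, h1, h2, h3⟩ |
      ⟨rfl, rfl, h1, h2, h3⟩ |
      ⟨rfl, rfl, h1, h2, h3⟩ |
      ⟨rfl, rfl, h1, h2, h3⟩
  all_goals
    (rcases h' with ⟨q1, q2, ⟨g1, g2, g3⟩ | ⟨g1, g2, g3⟩⟩ | ⟨q1, q2, ⟨g1, g2, g3⟩ | ⟨g1, g2, g3⟩⟩ | ⟨q1, q2, g1, g2, g3⟩ |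
      ⟨q1, q2, g1, g2, g3⟩ |
      ⟨q1, q2, g1, g2, g3⟩ |
      ⟨q1, q2, g1, g2, g3⟩ |
      ⟨q1, q2, g1, g2, g3⟩ |
      ⟨q1, q2, g1, g2, g3⟩ |
      ⟨q1, q2, g1, g2, g3⟩ |
      ⟨q1, q2, g1, g2, g3⟩ |
      ⟨q1, q2, g1, g2, g3⟩ |
      ⟨q1, q2, g1, g2, g3⟩)
  all_goals
    first
    | (exfalso; linarith)
    | (exfalso; exact hne ⟨q1.symm, q2.symm⟩)
    | (left; simp only [gp0, gp1, gp2, gp3, gp5, gp7]; push_cast; constructor <;> linarith)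
    | (right; simp only [gp1, gp3, gp4, gp6]; push_cast; constructor <;> linarith)

end Pool.Agent.X64.Bip
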