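import Pool.Agent.X64.Bip.Theta

namespace Pool.Agent.X64.Bip

variable {V : Type*} {adj : V → V → Prop} (M : Mono V adj)

namespace Mono

lemma closedQ (a b c d : V) : Closed [(a, b), (c, b), (a, d), (c, d)] := by
  intro H
  simp only [List.map_cons, List.map_nil, List.sum_cons, List.sum_nil]
  linear_combination (H a + H b + H c + H d) * two0

lemma closed8 (a α a' b' c' γ c d : V) :
    Closed [(a, α), (a', α), (a', b'), (c', b'), (c', γ), (c, γ), (a, d), (c, d)] := by
  intro H
  simp only [List.map_cons, List.map_nil, List.sum_cons, List.sum_nil]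
  linear_combination (H a + H α + H a' + H b' + H c' + H γ + H c + H d) * two0

/-- The two sides: if the cycle `a b c d` is linked at all four vertices to the outside on one hand
through `α a' b' c' γ` and on the other hand through `β, δ, b'', d'', a''`. -/
theorem sides (hne : ∀ y z, adj y z → y ≠ z) {a b c d a' b' c' α γ β δ a'' b'' d'' : V}
    (nd : [a, b, c, d, a', b', c', α, γ, β, δ, a'', b'', d''].Nodup)
    (hab : adj a b) (hcb : adj c b) (had : adj a d) (hcd : adj c d) (haα : adj a α)
    (ha'α : adj a' α) (ha'b' : adj a' b') (hc'b' : adj c' b') (hc'γ : adj c' γ) (hcγ : adj c γ)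
    (hβb : adj β b) (hβb'' : adj β b'') (hδd : adj δ d) (hδd'' : adj δ d'')
    (ha''d'' : adj a'' d'') (ha''b'' : adj a'' b'') :
    M.S [(a, b), (c, b), (a, d), (c, d)] α + M.S [(a, b), (c, b), (a, d), (c, d)] b'' = 1 := by
  have nd' : [a, b, c, d, a', b', c', α, γ].Nodup :=
    List.Nodup.sublist (l₂ := [a, b, c, d, a', b', c', α, γ, β, δ, a'', b'', d'']) (by
      exact List.sublist_append_left [a, b, c, d, a', b', c', α, γ] [β, δ, a'', b'', d'']) nd
  have th := M.theta hne nd' hab hcb had hcd haα ha'α ha'b' hc'b' hc'γ hcγ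
  simp only [List.nodup_cons, List.mem_cons, List.not_mem_nil, or_false, not_or, List.nodup_nil,
    not_false_eq_true, and_true] at nd
  -- transfer from `b` to `b''`
  have hadjd : ∀ f ∈ [(a, α), (a', α), (a', b'), (c', b'), (c', γ), (c, γ), (a, d), (c, d)],
      adj f.1 f.2 := by
    intro f hf
    simp only [List.mem_cons, List.not_mem_nil, or_false] at hf
    rcases hf with rfl | rfl | rfl | rfl | rfl | rfl | rfl | rfl <;> assumption
  have hadjb : ∀ f ∈ [(a, α), (a', α), (a', b'), (c', b'), (c', γ), (c, γ), (a, b), (c, b)],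
      adj f.1 f.2 := by
    intro f hf
    simp only [List.mem_cons, List.not_mem_nil, or_false] at hf
    rcases hf with rfl | rfl | rfl | rfl | rfl | rfl | rfl | rfl <;> assumption
  have t1 := M.inv hβb _ (closed8 a α a' b' c' γ c d) hadjd (by
    intro f hf
    simp only [List.mem_cons, List.not_mem_nil, or_false] at hf
    rcases hf with rfl | rfl | rfl | rfl | rfl | rfl | rfl | rfl <;>
      simp only [ne_eq] <;> tauto)
  have t2 := M.inv hβb'' _ (closed8 a α a' b' c' γ c d) hadjd (by
    intro f hf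
    simp only [List.mem_cons, List.not_mem_nil, or_false] at hf
    rcases hf with rfl | rfl | rfl | rfl | rfl | rfl | rfl | rfl <;>
      simp only [ne_eq] <;> tauto)
  have s1 := M.inv hδd _ (closed8 a α a' b' c' γ c b) hadjb (by
    intro f hf
    simp only [List.mem_cons, List.not_mem_nil, or_false] at hf
    rcases hf with rfl | rfl | rfl | rfl | rfl | rfl | rfl | rfl <;>
      simp only [ne_eq] <;> tauto)
  have s2 := M.inv hδd'' _ (closed8 a α a' b' c' γ c b) hadjb (by
    intro f hf
    simp only [List.mem_cons, List.not_mem_nil, or_false] at hf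
    rcases hf with rfl | rfl | rfl | rfl | rfl | rfl | rfl | rfl <;>
      simp only [ne_eq] <;> tauto)
  have s3 := M.inv ha''d'' _ (closed8 a α a' b' c' γ c b) hadjb (by
    intro f hf
    simp only [List.mem_cons, List.not_mem_nil, or_false] at hf
    rcases hf with rfl | rfl | rfl | rfl | rfl | rfl | rfl | rfl <;>
      simp only [ne_eq] <;> tauto)
  have s4 := M.inv ha''b'' _ (closed8 a α a' b' c' γ c b) hadjb (by
    intro f hf
    simp only [List.mem_cons, List.not_mem_nil, or_false] at hf
    rcases hf with rfl | rfl | rfl | rfl | rfl | rfl | rfl | rfl <;>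
      simp only [ne_eq] <;> tauto)
  rw [← t1, t2, ← s1, s2, ← s3, s4] at th
  simp only [S, List.map_cons, List.map_nil, List.sum_cons, List.sum_nil] at th ⊢
  linear_combination th - (M.ev a α b'' + M.ev a' α b'' + M.ev a' b' b'' + M.ev c' b' b'' +
    M.ev c' γ b'' + M.ev c γ b'') * two0

/-- number of edges of the list passing to the left of `(x, t)`, mod 2 -/
noncomputable def S' (C : List (V × V)) (t x : ℝ) : ZMod 2 :=
  (C.map (fun f => M.e f.1 f.2 t x)).sum

lemma inv' {u v : V} (huv : adj u v) (C : List (V × V)) (hC : Closed C)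
    (hadj : ∀ f ∈ C, adj f.1 f.2) (hne : ∀ f ∈ C, f.1 ≠ u ∧ f.1 ≠ v ∧ f.2 ≠ u ∧ f.2 ≠ v)
    (t : ℝ) (h1 : M.Y u ≤ t) (h2 : t ≤ M.Y v) :
    M.S' C t (M.F u v t) = M.S C u := by
  apply z2
  have : M.S' C t (M.F u v t) + M.S C u = (C.map (fun f => M.h (M.F u v) (M.Y u) t f.1 +
      M.h (M.F u v) (M.Y u) t f.2)).sum := by
    rw [S, S', ← List.sum_map_add]
    congr 1
    apply List.map_congr_left
    intro f hf
    obtain ⟨n1, n2, n3, n4⟩ := hne f hf
    have hpq := hadj f hf
    have := M.edge_step hpq (g := M.F u v) (M.cont u v huv) (t₀ := M.Y u) (t₁ := t) h1 ?_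
    · rw [M.lo u v huv] at this
      exact this
    · intro s hs1 hs2 hs3 hs4 heq
      obtain ⟨w, hw1, hw2, _⟩ := M.disj f.1 f.2 u v hpq huv (by
        intro h
        exact n1 (Prod.ext_iff.1 h).1) s hs3 hs4 hs1 (hs2.trans h2) heq
      rcases hw1 with rfl | rfl <;> rcases hw2 with h | h
      · exact n1 h
      · exact n2 h
      · exact n3 h
      · exact n4 h
  rw [this]
  exact hC _

lemma exists_of_S' (C : List (V × V)) (t x : ℝ) (h : M.S' C t x = 1) :
    ∃ f ∈ C, M.Y f.1 ≤ t ∧ t < M.Y f.2 ∧ M.F f.1 f.2 t < x := by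
  by_contra hc
  push Not at hc
  have : M.S' C t x = 0 := by
    rw [S']
    apply List.sum_eq_zero
    intro y hy
    obtain ⟨f, hf, rfl⟩ := List.mem_map.1 hy
    rw [e, ind_false]
    rintro ⟨h1, h2, h3⟩
    exact absurd h3 (not_lt.2 (hc f hf h1 h2))
  rw [this] at h
  exact absurd h (by decide)

end Mono

end Pool.Agent.X64.Bip
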