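import Pool.Agent.X64.Bip.Parity

namespace Pool.Agent.X64.Bip

variable {V : Type*} {adj : V → V → Prop} (M : Mono V adj)

namespace Mono

/-- `e` at a vertex -/
noncomputable def ev (p q v : V) : ZMod 2 := M.e p q (M.Y v) (M.X v)

/-- number of edges of the list passing to the left of the vertex `v`, mod 2 -/
noncomputable def S (C : List (V × V)) (v : V) : ZMod 2 := (C.map (fun f => M.ev f.1 f.2 v)).sum

/-- all degrees are even -/
def Closed (C : List (V × V)) : Prop :=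
  ∀ H : V → ZMod 2, (C.map (fun f => H f.1 + H f.2)).sum = 0

lemma z2 : ∀ x y : ZMod 2, x + y = 0 → x = y := by decide

lemma two0 : (2 : ZMod 2) = 0 := rfl

lemma step_edge {u v p q : V} (huv : adj u v) (hpq : adj p q) (h1 : p ≠ u) (h2 : p ≠ v)
    (h3 : q ≠ u) (h4 : q ≠ v) :
    M.ev p q v + M.ev p q u = M.h (M.F u v) (M.Y u) (M.Y v) p + M.h (M.F u v) (M.Y u) (M.Y v) q := by
  have hup := M.up u v huv
  have := M.edge_step hpq (g := M.F u v) (M.cont u v huv) (t₀ := M.Y u) (t₁ := M.Y v) (by linarith) ?_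
  · rw [M.hi u v huv, M.lo u v huv] at this
    exact this
  · intro t ht1 ht2 ht3 ht4 heq
    obtain ⟨w, hw1, hw2, _⟩ := M.disj p q u v hpq huv (by
      intro h
      exact h1 (Prod.ext_iff.1 h).1) t ht3 ht4 ht1 ht2 heq
    rcases hw1 with rfl | rfl <;> rcases hw2 with h | h
    · exact h1 h
    · exact h2 h
    · exact h3 h
    · exact h4 h

lemma inv {u v : V} (huv : adj u v) (C : List (V × V)) (hC : Closed C)
    (hadj : ∀ f ∈ C, adj f.1 f.2) (hne : ∀ f ∈ C, f.1 ≠ u ∧ f.1 ≠ v ∧ f.2 ≠ u ∧ f.2 ≠ v) :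
    M.S C u = M.S C v := by
  symm
  apply z2
  have : M.S C v + M.S C u = (C.map (fun f => M.h (M.F u v) (M.Y u) (M.Y v) f.1 +
      M.h (M.F u v) (M.Y u) (M.Y v) f.2)).sum := by
    rw [S, S, ← List.sum_map_add]
    congr 1
    apply List.map_congr_left
    intro f hf
    obtain ⟨h1, h2, h3, h4⟩ := hne f hf
    exact M.step_edge huv (hadj f hf) h1 h2 h3 h4
  rw [this]
  exact hC _

/-- two edges leaving the same vertex -/
lemma step_fork {x w v : V} (hw : adj x w) (hv : adj x v) (hwv : w ≠ v) (hne : ∀ y z, adj y z → y ≠ z) :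
    M.ev x w v + M.e x w (M.Y x + 1 / 2) (M.F x v (M.Y x + 1 / 2)) =
      M.h (M.F x v) (M.Y x) (M.Y v) x + M.h (M.F x v) (M.Y x) (M.Y v) w := by
  have hup := M.up x v hv
  have hupw := M.up x w hw
  have := M.edge_step hw (g := M.F x v) (M.cont x v hv) (t₀ := M.Y x + 1 / 2) (t₁ := M.Y v)
    (by linarith) ?_
  · rw [M.hi x v hv] at this
    rw [ev, this]
    congr 1
    · rw [h, h, ind_false, ind_false]
      · rintro ⟨h1, _⟩; linarith
      · rintro ⟨h1, _⟩; linarith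
    · rw [h, h]
      congr 1
      refine propext ⟨fun h => ⟨by linarith [h.1], h.2⟩, fun h => ⟨?_, h.2⟩⟩
      linarith [h.1]
  · intro t ht1 ht2 ht3 ht4 heq
    obtain ⟨y, hy1, hy2, hy3⟩ := M.disj x w x v hw hv (by
      intro h
      exact hwv (Prod.ext_iff.1 h).2) t ht3 ht4 (by linarith) ht2 heq
    rcases hy1 with rfl | rfl
    · linarith
    · rcases hy2 with h | h
      · exact hne _ _ hw h.symm
      · exact hwv h

lemma fork_order {x w v : V} (hw : adj x w) (hv : adj x v) (hwv : w ≠ v)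
    (hne : ∀ y z, adj y z → y ≠ z) :
    M.e x w (M.Y x + 1 / 2) (M.F x v (M.Y x + 1 / 2)) +
      M.e x v (M.Y x + 1 / 2) (M.F x w (M.Y x + 1 / 2)) = 1 := by
  have hup := M.up x v hv
  have hupw := M.up x w hw
  have hF : M.F x w (M.Y x + 1 / 2) ≠ M.F x v (M.Y x + 1 / 2) := by
    intro heq
    obtain ⟨y, hy1, hy2, hy3⟩ := M.disj x w x v hw hv (by
      intro h
      exact hwv (Prod.ext_iff.1 h).2) (M.Y x + 1 / 2) (by linarith) (by linarith) (by linarith)
        (by linarith) heq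
    rcases hy1 with rfl | rfl
    · linarith
    · rcases hy2 with h | h
      · exact hne _ _ hw h.symm
      · exact hwv h
  rcases lt_or_gt_of_ne hF with h | h
  · rw [e, e, ind_true ⟨by linarith, by linarith, h⟩, ind_false (by rintro ⟨_, _, h'⟩; linarith)]
    decide
  · rw [e, e, ind_false (by rintro ⟨_, _, h'⟩; linarith), ind_true ⟨by linarith, by linarith, h⟩]
    decide

/-- the three paths between `a` and `c`: through `b`, through `d`, and through `α a' b' c' γ`. -/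
theorem theta (hne : ∀ y z, adj y z → y ≠ z) {a b c d a' b' c' α γ : V}
    (nd : [a, b, c, d, a', b', c', α, γ].Nodup)
    (hab : adj a b) (hcb : adj c b) (had : adj a d) (hcd : adj c d) (haα : adj a α)
    (ha'α : adj a' α) (ha'b' : adj a' b') (hc'b' : adj c' b') (hc'γ : adj c' γ) (hcγ : adj c γ) :
    M.S [(a, b), (c, b), (a, d), (c, d)] α +
    M.S [(a, α), (a', α), (a', b'), (c', b'), (c', γ), (c, γ), (a, d), (c, d)] b +
    M.S [(a, α), (a', α), (a', b'), (c', b'), (c', γ), (c, γ), (a, b), (c, b)] d = 1 := by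
  simp only [List.nodup_cons, List.mem_cons, List.not_mem_nil, or_false, not_or, List.nodup_nil,
    not_false_eq_true, and_true] at nd
  obtain ⟨⟨n1, n2, n3, n4, n5, n6, n7, n8⟩, ⟨m1, m2, m3, m4, m5, m6, m7⟩,
    ⟨l1, l2, l3, l4, l5, l6⟩, ⟨k1, k2, k3, k4, k5⟩, ⟨j1, j2, j3, j4⟩, ⟨i1, i2, i3⟩, ⟨o1, o2⟩, o3⟩ := nd
  -- from `α`
  have A1 := M.step_fork hab haα m6 hne
  have A2 := M.step_edge haα hcb (Ne.symm n2) l5 (Ne.symm n1) m6
  have A3 := M.step_fork had haα k4 hne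
  have A4 := M.step_edge haα hcd (Ne.symm n2) l5 (Ne.symm n3) k4
  -- from `b`
  have B1 := M.step_fork haα hab (Ne.symm m6) hne
  have B2 := M.step_edge hab ha'α (Ne.symm n4) (Ne.symm m3) (Ne.symm n7) (Ne.symm m6)
  have B3 := M.step_edge hab ha'b' (Ne.symm n4) (Ne.symm m3) (Ne.symm n5) (Ne.symm m4)
  have B4 := M.step_edge hab hc'b' (Ne.symm n6) (Ne.symm m5) (Ne.symm n5) (Ne.symm m4)
  have B5 := M.step_edge hab hc'γ (Ne.symm n6) (Ne.symm m5) (Ne.symm n8) (Ne.symm m7)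
  have B6 := M.step_edge hab hcγ (Ne.symm n2) (Ne.symm m1) (Ne.symm n8) (Ne.symm m7)
  have B7 := M.step_fork had hab (Ne.symm m2) hne
  have B8 := M.step_edge hab hcd (Ne.symm n2) (Ne.symm m1) (Ne.symm n3) (Ne.symm m2)
  -- from `d`
  have D1 := M.step_fork haα had (Ne.symm k4) hne
  have D2 := M.step_edge had ha'α (Ne.symm n4) (Ne.symm k1) (Ne.symm n7) (Ne.symm k4)
  have D3 := M.step_edge had ha'b' (Ne.symm n4) (Ne.symm k1) (Ne.symm n5) (Ne.symm k2)
  have D4 := M.step_edge had hc'b' (Ne.symm n6) (Ne.symm k3) (Ne.symm n5) (Ne.symm k2)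
  have D5 := M.step_edge had hc'γ (Ne.symm n6) (Ne.symm k3) (Ne.symm n8) (Ne.symm k5)
  have D6 := M.step_edge had hcγ (Ne.symm n2) l1 (Ne.symm n8) (Ne.symm k5)
  have D7 := M.step_fork hab had m2 hne
  have D8 := M.step_edge had hcb (Ne.symm n2) l1 (Ne.symm n1) m2
  have O1 := M.fork_order hab haα m6 hne
  have O2 := M.fork_order had haα k4 hne
  have O3 := M.fork_order had hab (Ne.symm m2) hne
  simp only [S, List.map_cons, List.map_nil, List.sum_cons, List.sum_nil]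
  linear_combination A1 + A2 + A3 + A4 + B1 + B2 + B3 + B4 + B5 + B6 + B7 + B8 + D1 + D2 + D3 +
    D4 + D5 + D6 + D7 + D8 - O1 - O2 - O3 +
    (- M.ev c b a - M.ev c d a - M.ev a' α a - M.ev a' b' a - M.ev c' b' a - M.ev c' γ a
      - M.ev c γ a
      + M.h (M.F a α) (M.Y a) (M.Y α) a + M.h (M.F a α) (M.Y a) (M.Y α) b
      + M.h (M.F a α) (M.Y a) (M.Y α) c + M.h (M.F a α) (M.Y a) (M.Y α) d
      + M.h (M.F a b) (M.Y a) (M.Y b) a + M.h (M.F a b) (M.Y a) (M.Y b) α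
      + M.h (M.F a b) (M.Y a) (M.Y b) a' + M.h (M.F a b) (M.Y a) (M.Y b) b'
      + M.h (M.F a b) (M.Y a) (M.Y b) c' + M.h (M.F a b) (M.Y a) (M.Y b) γ
      + M.h (M.F a b) (M.Y a) (M.Y b) c + M.h (M.F a b) (M.Y a) (M.Y b) d
      + M.h (M.F a d) (M.Y a) (M.Y d) a + M.h (M.F a d) (M.Y a) (M.Y d) α
      + M.h (M.F a d) (M.Y a) (M.Y d) a' + M.h (M.F a d) (M.Y a) (M.Y d) b'
      + M.h (M.F a d) (M.Y a) (M.Y d) c' + M.h (M.F a d) (M.Y a) (M.Y d) γ
      + M.h (M.F a d) (M.Y a) (M.Y d) c + M.h (M.F a d) (M.Y a) (M.Y d) b - 2) * two0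

end Mono

end Pool.Agent.X64.Bip
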